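import Mathlib

/-!
Basic definitions for right-angled polytopes in hyperbolic space (MP_20f8ce_gt).
-/

open MeasureTheory Finset

namespace Pool.Agent.RA

/-- Minkowski space `ℝ^{n,1}`, written as (space, time). -/
abbrev M (n : ℕ) := (Fin n → ℝ) × ℝ

/-- The Lorentzian form `x₁y₁ + ⋯ + xₙyₙ - x_{n+1}y_{n+1}`. -/
def B {n : ℕ} (x y : M n) : ℝ := (∑ i, x.1 i * y.1 i) - x.2 * y.2

/-- The Euclidean square norm on `ℝ^{n,1}`. -/
def E2 {n : ℕ} (x : M n) : ℝ := (∑ i, x.1 i ^ 2) + x.2 ^ 2

section basic
variable {n : ℕ}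

lemma B_comm (x y : M n) : B x y = B y x := by
  simp only [B, mul_comm]

lemma B_add_left (x y z : M n) : B (x + y) z = B x z + B y z := by
  simp only [B, Prod.fst_add, Prod.snd_add, Pi.add_apply, add_mul, sum_add_distrib]
  ring

lemma B_add_right (x y z : M n) : B x (y + z) = B x y + B x z := by
  rw [B_comm, B_add_left, B_comm y, B_comm z]

lemma B_smul_left (c : ℝ) (x y : M n) : B (c • x) y = c * B x y := by
  simp only [B, Prod.smul_fst, Prod.smul_snd, Pi.smul_apply, smul_eq_mul, mul_sub, mul_sum,
    mul_assoc]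

lemma B_smul_right (c : ℝ) (x y : M n) : B x (c • y) = c * B x y := by
  rw [B_comm, B_smul_left, B_comm]

/-- the Lorentzian form as a bilinear map -/
def Bl : M n →ₗ[ℝ] M n →ₗ[ℝ] ℝ :=
  LinearMap.mk₂ ℝ B B_add_left B_smul_left B_add_right B_smul_right

@[simp] lemma Bl_apply (x y : M n) : Bl x y = B x y := rfl

@[simp] lemma B_zero_left (x : M n) : B 0 x = 0 := by simpa using B_smul_left 0 0 x
@[simp] lemma B_zero_right (x : M n) : B x 0 = 0 := by simpa using B_smul_right 0 x 0
lemma B_neg_left (x y : M n) : B (-x) y = - B x y := by simpa using B_smul_left (-1) x y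
lemma B_neg_right (x y : M n) : B x (-y) = - B x y := by simpa using B_smul_right (-1) x y
lemma B_sub_left (x y z : M n) : B (x - y) z = B x z - B y z := by
  rw [sub_eq_add_neg, B_add_left, B_neg_left]; ring
lemma B_sub_right (x y z : M n) : B x (y - z) = B x y - B x z := by
  rw [sub_eq_add_neg, B_add_right, B_neg_right]; ring
lemma B_sum_left {κ : Type*} (s : Finset κ) (f : κ → M n) (y : M n) :
    B (∑ i ∈ s, f i) y = ∑ i ∈ s, B (f i) y := by
  classical
  induction s using Finset.induction_on with
  | empty => simp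
  | insert a s ha ih => rw [sum_insert ha, sum_insert ha, B_add_left, ih]
lemma B_sum_right {κ : Type*} (s : Finset κ) (f : κ → M n) (y : M n) :
    B y (∑ i ∈ s, f i) = ∑ i ∈ s, B y (f i) := by
  rw [B_comm, B_sum_left]; exact sum_congr rfl fun i _ => B_comm _ _

lemma E2_nonneg (x : M n) : 0 ≤ E2 x := by
  unfold E2; positivity

lemma E2_smul (c : ℝ) (x : M n) : E2 (c • x) = c ^ 2 * E2 x := by
  simp only [E2, Prod.smul_fst, Prod.smul_snd, Pi.smul_apply, smul_eq_mul, mul_pow, mul_add,
    mul_sum]

lemma B_self (x : M n) : B x x = (∑ i, x.1 i ^ 2) - x.2 ^ 2 := by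
  simp only [B, sq]

lemma B_self_le_E2 (x : M n) : B x x ≤ E2 x := by
  rw [B_self, E2]; nlinarith [sq_nonneg x.2]

lemma neg_E2_le_B_self (x : M n) : - E2 x ≤ B x x := by
  rw [B_self, E2]
  have : 0 ≤ ∑ i, x.1 i ^ 2 := by positivity
  linarith

lemma abs_B_self_le_E2 (x : M n) : |B x x| ≤ E2 x :=
  abs_le.2 ⟨neg_E2_le_B_self x, B_self_le_E2 x⟩

lemma E2_eq_zero (x : M n) (h : E2 x = 0) : x = 0 := by
  unfold E2 at h
  have h1 : 0 ≤ ∑ i, x.1 i ^ 2 := by positivity
  have h2 : ∑ i, x.1 i ^ 2 = 0 := by nlinarith [sq_nonneg x.2]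
  have h3 : x.2 ^ 2 = 0 := by nlinarith [sq_nonneg x.2]
  rw [sum_eq_zero_iff_of_nonneg (fun i _ => sq_nonneg _)] at h2
  ext i
  · simpa using h2 i (mem_univ i)
  · simpa using h3

lemma continuous_B_left (y : M n) : Continuous (fun x : M n => B x y) := by
  unfold B; fun_prop

lemma continuous_B_right (y : M n) : Continuous (fun x : M n => B y x) := by
  unfold B; fun_prop

lemma continuous_Q : Continuous (fun x : M n => B x x) := by
  unfold B; fun_prop

lemma continuous_E2 : Continuous (fun x : M n => E2 x) := by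
  unfold E2; fun_prop

end basic

/-! ### Combinatorial data of a Gram matrix -/
section comb
variable {ι : Type} [Fintype ι] [DecidableEq ι] (G : ι → ι → ℝ)

/-- pairwise orthogonal set of indices -/
def IsCl (s : Finset ι) : Prop := ∀ i ∈ s, ∀ j ∈ s, i ≠ j → G i j = 0

open Classical in
/-- all pairwise orthogonal sets (they are the finite faces of the polytope) -/
noncomputable def cliques : Finset (Finset ι) := Finset.univ.filter (IsCl G)

/-- number of pairwise orthogonal sets with `k` elements -/
noncomputable def N (k : ℕ) : ℕ := ((cliques G).filter (fun s => s.card = k)).card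

open Classical in
/-- `{k | e_k ⟂ e_i + e_j}` -/
noncomputable def star (i j : ι) : Finset ι := Finset.univ.filter (fun k => G k i + G k j = 0)

open Classical in
/-- the ideal vertices, as sets of indices of the facets through them -/
noncomputable def iv : Finset (Finset ι) :=
  ((Finset.univ : Finset (ι × ι)).filter (fun q => G q.1 q.2 = -1)).image
    (fun q => star G q.1 q.2)

/-- The alternating sum `∑ (-1/2)^{codim}` over the finite faces. -/
noncomputable def chi : ℝ := ∑ s ∈ cliques G, (-1 / 2 : ℝ) ^ s.card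

end comb

/-- Right-angled system of dimension `n` : unit outward normals of a right-angled polytope of
finite volume in hyperbolic `n`-space. -/
structure RASys (n : ℕ) (ι : Type) [Fintype ι] [DecidableEq ι] where
  /-- normals -/
  e : ι → M n
  unit : ∀ i, B (e i) (e i) = 1
  gram : ∀ i j, i ≠ j → B (e i) (e j) = 0 ∨ B (e i) (e j) ≤ -1
  /-- a timelike interior point -/
  p : M n
  ptime : B p p < 0
  pneg : ∀ i, B p (e i) < 0
  cone : ∀ x, (∀ i, B x (e i) ≤ 0) → B x x ≤ 0

namespace RASys
variable {n : ℕ} {ι : Type} [Fintype ι] [DecidableEq ι] (R : RASys n ι)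

/-- Gram matrix -/
def G (i j : ι) : ℝ := B (R.e i) (R.e j)

/-- the closed polyhedral cone over the polytope -/
def K : Set (M n) := {x | ∀ i, B x (R.e i) ≤ 0}

open Classical in
/-- the facets which are strictly visible from `x` -/
noncomputable def pos (x : M n) : Finset ι := Finset.univ.filter (fun i => 0 < B x (R.e i))

lemma G_comm (i j : ι) : R.G i j = R.G j i := B_comm _ _

lemma isClosed_K : IsClosed R.K := by
  have : R.K = ⋂ i, {x : M n | B x (R.e i) ≤ 0} := by ext x; simp [K]
  rw [this]
  exact isClosed_iInter fun i => isClosed_le (continuous_B_left _) continuous_const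

lemma measurableSet_K : MeasurableSet R.K := R.isClosed_K.measurableSet

end RASys

end Pool.Agent.RA
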