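import Pool.Agent.Lib_helper16.RA.Dim2b

/-!
The Euler-Gram relation.
-/

open Finset MeasureTheory

namespace Pool.Agent.RA
variable {n : ℕ}

instance instHaarM : (volume : Measure (M n)).IsAddHaarMeasure :=
  inferInstanceAs ((volume : Measure (Fin n → ℝ)).prod (volume : Measure ℝ)).IsAddHaarMeasure

lemma volume_hyperplane {w : M n} (hw : w ≠ 0) : volume {x : M n | B x w = 0} = 0 := by
  have h1 : {x : M n | B x w = 0} = (LinearMap.ker (Bl.flip w) : Set (M n)) := by
    ext x
    simp [LinearMap.mem_ker]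
  rw [h1]
  apply Measure.addHaar_submodule
  intro htop
  have h2 : ((w.1, -w.2) : M n) ∈ LinearMap.ker (Bl.flip w) := by rw [htop]; trivial
  rw [LinearMap.mem_ker, LinearMap.flip_apply, Bl_apply] at h2
  apply hw
  apply E2_eq_zero
  rw [← h2]
  simp only [B, E2, sq]
  ring

variable {ι : Type} [Fintype ι] [DecidableEq ι]

/-- the difference of crossing times of the walls `i` and `j` -/
def wvec (R : RASys n ι) (i j : ι) : M n := B R.p (R.e j) • R.e i - B R.p (R.e i) • R.e j

lemma wvec_ne_zero (R : RASys n ι) {i j : ι} (hij : i ≠ j) : wvec R i j ≠ 0 := by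
  intro h
  have h1 : B (wvec R i j) (R.e i) = 0 := by rw [h, B_zero_left]
  rw [wvec, B_sub_left, B_smul_left, B_smul_left, R.unit, B_comm (R.e j)] at h1
  have h2 : B (R.e i) (R.e j) ≤ 0 := R.G_nonpos hij
  have h3 := R.pneg i
  have h4 := R.pneg j
  have := mul_nonneg_of_nonpos_of_nonpos h3.le h2
  linarith

/-- generic points have distinct crossing times -/
lemma exists_good (R : RASys n ι) (x : M n) (hx : ∀ i, B x (R.e i) ≠ 0) :
    ∃ x', R.pos x' = R.pos x ∧ (∀ i, B x' (R.e i) ≠ 0) ∧ ∀ i j, i ≠ j → B x' (wvec R i j) ≠ 0 := by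
  classical
  have hopen : IsOpen {x' : M n | ∀ i, 0 < B x' (R.e i) * B x (R.e i)} := by
    have : {x' : M n | ∀ i, 0 < B x' (R.e i) * B x (R.e i)} =
        ⋂ i, {x' : M n | 0 < B x' (R.e i) * B x (R.e i)} := by ext; simp
    rw [this]
    exact isOpen_iInter_of_finite fun i =>
      isOpen_lt continuous_const ((continuous_B_left _).mul continuous_const)
  have hpos := hopen.measure_pos volume ⟨x, fun i => mul_self_pos.2 (hx i)⟩
  have hnull : volume (⋃ i, ⋃ j, ⋃ (_ : i ≠ j), {x' : M n | B x' (wvec R i j) = 0}) = 0 := by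
    refine measure_iUnion_null fun i => measure_iUnion_null fun j => measure_iUnion_null fun h => ?_
    exact volume_hyperplane (wvec_ne_zero R h)
  obtain ⟨x', hx', hx'2⟩ : ∃ x' ∈ {x' : M n | ∀ i, 0 < B x' (R.e i) * B x (R.e i)},
      x' ∉ ⋃ i, ⋃ j, ⋃ (_ : i ≠ j), {x' : M n | B x' (wvec R i j) = 0} := by
    by_contra hcon
    push Not at hcon
    exact absurd (measure_mono_null hcon hnull) hpos.ne'
  refine ⟨x', ?_, ?_, ?_⟩
  · ext i
    rw [RASys.mem_pos, RASys.mem_pos]
    have := hx' i
    constructor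
    · intro h; exact (pos_iff_pos_of_mul_pos this).1 h
    · intro h; exact (pos_iff_pos_of_mul_pos this).2 h
  · intro i h
    have := hx' i
    rw [h, zero_mul] at this
    exact lt_irrefl _ this
  · intro i j hij h
    apply hx'2
    simp only [Set.mem_iUnion]
    exact ⟨i, j, hij, h⟩

/-- Path argument: the Euler-Gram relation follows from the crossing identities. -/
lemma ME_of_CI_all (hn : 2 ≤ n) (R : RASys n ι)
    (hCI : ∀ i y, B y (R.e i) = 0 → (∀ j, j ≠ i → B y (R.e j) ≠ 0) → CI R i (R.pos y))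
    (x : M n) (hx : ∀ i, B x (R.e i) ≠ 0) : ME R (R.pos x) := by
  classical
  obtain ⟨x', hpos, hx', hgood⟩ := exists_good R x hx
  rw [← hpos]
  -- crossing times
  set τ : ι → ℝ := fun i => -(B x' (R.e i)) / B R.p (R.e i) with hτ
  have hτi : ∀ i, B x' (R.e i) = -(τ i * B R.p (R.e i)) := fun i => by
    rw [hτ]; simp only; rw [div_mul_cancel₀ _ (R.pneg i).ne]; ring
  have hτne : ∀ i j, i ≠ j → τ i ≠ τ j := by
    intro i j hij h
    apply hgood i j hij
    rw [wvec, B_sub_right, B_smul_right, B_smul_right, hτi i, hτi j, h]; ring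
  have key : ∀ k : ℕ, ∀ S : Finset ι, (univ \ S).card = k →
      (∀ a ∈ S, ∀ b, b ∉ S → τ b < τ a) → ME R S := by
    intro k
    induction k with
    | zero =>
      intro S hS _
      rw [card_eq_zero, sdiff_eq_empty_iff_subset] at hS
      rw [univ_subset_iff.1 hS]
      exact ME_univ hn R
    | succ k ih =>
      intro S hS hup
      have hne : (univ \ S).Nonempty := by
        rw [← card_pos]; omega
      obtain ⟨i, hi, hmax⟩ := exists_max_image (univ \ S) τ hne
      simp only [mem_sdiff, mem_univ, true_and] at hi hmax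
      have hSpos : S = R.pos (x' + τ i • R.p) := by
        ext j
        rw [RASys.mem_pos, B_add_left, B_smul_left, hτi j]
        have h1 : -(τ j * B R.p (R.e j)) + τ i * B R.p (R.e j) =
            (τ j - τ i) * -(B R.p (R.e j)) := by ring
        rw [h1]
        have h2 : 0 < -(B R.p (R.e j)) := by have := R.pneg j; linarith
        rw [mul_pos_iff_of_pos_right h2, sub_pos]
        constructor
        · intro hj; exact hup j hj i hi
        · intro hj
          by_contra hjS
          exact absurd (hmax j hjS) (not_le.2 hj)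
      have hyi : B (x' + τ i • R.p) (R.e i) = 0 := by
        rw [B_add_left, B_smul_left, hτi i]; ring
      have hyj : ∀ j, j ≠ i → B (x' + τ i • R.p) (R.e j) ≠ 0 := by
        intro j hj
        rw [B_add_left, B_smul_left, hτi j]
        have h1 : -(τ j * B R.p (R.e j)) + τ i * B R.p (R.e j) =
            (τ i - τ j) * (B R.p (R.e j)) := by ring
        rw [h1]
        exact mul_ne_zero (sub_ne_zero.2 (hτne i j hj.symm)) (R.pneg j).ne
      have h1 := hCI i _ hyi hyj
      rw [← hSpos] at h1
      refine ME_of_CI hi h1 (ih (insert i S) ?_ ?_)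
      · rw [sdiff_insert, card_erase_of_mem (by simp [hi]), hS]
        rfl
      · intro a ha b hb
        rw [mem_insert, not_or] at hb
        rcases mem_insert.1 ha with rfl | ha
        · exact lt_of_le_of_ne (hmax b hb.2) (hτne b a hb.1)
        · exact hup a ha b hb.2
  refine key _ _ rfl ?_
  intro a ha b hb
  rw [RASys.mem_pos] at ha hb
  have h1 := R.pneg a
  have h2 := R.pneg b
  have h3 : 0 < τ a := by
    rw [hτ]; simp only
    exact div_pos_of_neg_of_neg (by linarith) h1
  have h4 : τ b ≤ 0 := by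
    rw [hτ]; simp only
    push Not at hb
    exact div_nonpos_of_nonneg_of_nonpos (by linarith) h2.le
  linarith

theorem ME_all : ∀ (n : ℕ), 2 ≤ n → ∀ (ι : Type) [Fintype ι] [DecidableEq ι] (R : RASys n ι)
    (x : M n), (∀ i, B x (R.e i) ≠ 0) → ME R (R.pos x) := by
  intro n
  induction n with
  | zero => intro h; omega
  | succ n ih =>
    intro hn ι _ _ R x hx
    rcases Nat.lt_or_ge n 2 with h2 | h2
    · obtain rfl : n = 1 := by omega
      exact ME_of_CI_all le_rfl R (fun i y hyi hy => CI_two R i y hyi hy) x hx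
    · refine ME_of_CI_all hn R (fun i y hyi hy => ?_) x hx
      exact CI_of_ME (by omega) R i y hyi hy (fun F y' hy' => ih h2 _ F.R' y' hy')

/-- Euler-Gram relation -/
theorem euler_gram (hn : 2 ≤ n) (R : RASys n ι) (x : M n) (hx : ∀ i, B x (R.e i) ≠ 0) :
    (-1 : ℤ) ^ n * ∑ s ∈ (cliques R.G).filter (fun s => Disjoint s (R.pos x)), (-1 : ℤ) ^ s.card
      + ((iv R.G).filter (fun v => Disjoint v (R.pos x))).card
    = (if R.pos x = ∅ then 1 else 0) + (-1 : ℤ) ^ n * (if R.pos x = univ then 1 else 0) :=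
  ME_all n hn ι R x hx

/-- Euler relation -/
theorem euler (hn : 2 ≤ n) (R : RASys n ι) :
    (-1 : ℤ) ^ n * ∑ s ∈ cliques R.G, (-1 : ℤ) ^ s.card + (iv R.G).card = 1 := by
  have h := euler_gram hn R R.p (fun i => (R.pneg i).ne)
  have hpos : R.pos R.p = ∅ := RASys.pos_eq_empty.2 R.p_mem
  rw [hpos] at h
  obtain ⟨i0⟩ := R.nonempty_index (by omega)
  have hne : (∅ : Finset ι) ≠ univ := by
    intro h0
    have := mem_univ i0
    rw [← h0] at this
    exact notMem_empty _ this
  rw [if_pos rfl, if_neg hne] at h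
  simpa using h

end Pool.Agent.RA
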