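import Pool.Agent.Lib_helper16.RA.CombProof
import Pool.Agent.Lib_helper54.RAGB
import Pool.Agent.Lib_helper61.RAPar

/-!
The combinatorial facts hold for every right-angled system.
-/

open Finset

namespace Pool.Agent.RA
variable {n : ℕ} {ι : Type} [Fintype ι] [DecidableEq ι]

lemma sum_range3 {α : Type*} [AddCommMonoid α] (f : ℕ → α) :
    ∑ k ∈ range (2 + 1), f k = f 0 + f 1 + f 2 := by
  rw [sum_range_succ, sum_range_succ, sum_range_succ, sum_range_zero, zero_add]

lemma sum_range5 {α : Type*} [AddCommMonoid α] (f : ℕ → α) :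
    ∑ k ∈ range (4 + 1), f k = f 0 + f 1 + f 2 + f 3 + f 4 := by
  rw [sum_range_succ, sum_range_succ, sum_range_succ, sum_range_succ, sum_range_succ,
    sum_range_zero, zero_add]

lemma polygon_N {ι : Type} [Fintype ι] [DecidableEq ι] (R : RASys 2 ι) :
    5 ≤ N R.G 1 + (iv R.G).card := by
  have h1 := chi_pos le_rfl (by decide : Even 2) R
  have h2 := euler_N R le_rfl
  unfold chi at h1
  rw [sum_by_card R (fun k => (-1 / 2 : ℝ) ^ k), sum_range3] at h1
  rw [sum_range3] at h2
  rw [N_zero] at h1 h2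
  norm_num at h1 h2
  have h3 : (4 : ℝ) - 2 * N R.G 1 + N R.G 2 < 0 := by linarith
  have h4 : (4 : ℤ) - 2 * N R.G 1 + N R.G 2 < 0 := by exact_mod_cast h3
  have h5 : (5 : ℤ) ≤ N R.G 1 + (iv R.G).card := by linarith
  exact_mod_cast h5

lemma chi4_N {ι : Type} [Fintype ι] [DecidableEq ι] (R : RASys 4 ι) :
    (1 : ℤ) ≤ 16 - 8 * N R.G 1 + 4 * N R.G 2 - 2 * N R.G 3 + N R.G 4 := by
  have h1 := chi_pos (by norm_num) (by decide : Even 4) R
  unfold chi at h1
  rw [sum_by_card R (fun k => (-1 / 2 : ℝ) ^ k), sum_range5, N_zero] at h1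
  norm_num at h1
  have h3 : (0 : ℝ) < 16 - 8 * N R.G 1 + 4 * N R.G 2 - 2 * N R.G 3 + N R.G 4 := by linarith
  have h4 : (0 : ℤ) < 16 - 8 * N R.G 1 + 4 * N R.G 2 - 2 * N R.G 3 + N R.G 4 := by
    exact_mod_cast h3
  linarith

/-- All combinatorial facts for a right-angled system. -/
theorem comb_of (hn : 2 ≤ n) (R : RASys n ι)
    (hstar : ∀ v ∈ iv R.G, ∀ s ∈ cliques R.G, s ⊆ v →
      (v.filter (fun j => j ∉ s ∧ ∀ i ∈ s, R.G i j = 0)).card = 2 * (n - 1 - s.card))
    (htwo : ∀ (m : ℕ) (κ : Type) [Fintype κ] [DecidableEq κ] (_ : RASys m κ), 2 ≤ m →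
      2 ≤ Fintype.card κ) : Comb n R.G where
  symm := R.G_comm
  diag := R.G_self
  gram := R.gram
  card_le := fun s hs => card_clique_le R hs
  edge := fun s hs hc => edge_all R s (mem_cliques'.1 hs) hn hc
  euler := by
    intro s hs hc
    have hs' := mem_cliques'.1 hs
    obtain ⟨F⟩ := exists_face R (m := n - s.card) (by omega) s hs' (by omega)
    have h := euler_N F.R' (by omega)
    rw [F.G'_eq] at h
    rw [cf_face R (m := n - s.card) (by omega) s hs' (by omega)]
    refine Eq.trans ?_ h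
    congr 1
    refine sum_congr rfl fun k _ => ?_
    rw [Nf_face R s hs']
  polygon := by
    intro s hs hc
    have hs' := mem_cliques'.1 hs
    obtain ⟨F⟩ := exists_face R (m := 2) le_rfl s hs' (by omega)
    have h := polygon_N F.R'
    rw [F.G'_eq] at h
    rw [cf_face R (m := 2) le_rfl s hs' (by omega), Nf_face R s hs']
    exact h
  chi4 := by
    intro s hs hc
    have hs' := mem_cliques'.1 hs
    obtain ⟨F⟩ := exists_face R (m := 4) (by norm_num) s hs' (by omega)
    have h := chi4_N F.R'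
    rw [F.G'_eq] at h
    rw [Nf_face R s hs', Nf_face R s hs', Nf_face R s hs', Nf_face R s hs']
    exact h
  star_one := hstar
  par_count := by
    classical
    intro s hs hc
    have hs' := mem_cliques'.1 hs
    obtain ⟨F⟩ := exists_face R (m := n - s.card) (by omega) s hs' (by omega)
    have h := par_count_all (by omega) F.R'
    rw [cf_face R (m := n - s.card) (by omega) s hs' (by omega), ← F.G'_eq, ← h]
    symm
    refine card_bij (fun q _ => (q.1.1, q.2.1)) ?_ ?_ ?_
    · intro q hq
      simp only [mem_filter, mem_product, mem_univ, true_and, lk, and_true] at hq ⊢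
      rw [F.G'] at hq
      exact ⟨⟨q.1.2, q.2.2⟩, hq⟩
    · intro a _ b _ hab
      simp only [Prod.mk.injEq] at hab
      exact Prod.ext (Subtype.ext hab.1) (Subtype.ext hab.2)
    · intro q hq
      simp only [mem_filter, mem_product, mem_univ, true_and, lk] at hq
      refine ⟨(⟨q.1, hq.1.1⟩, ⟨q.2, hq.1.2⟩), ?_, rfl⟩
      simp only [mem_filter, mem_product, mem_univ, true_and, and_true]
      rw [F.G']
      exact hq.2
  two_le := by
    intro s hs hc
    have hs' := mem_cliques'.1 hs
    obtain ⟨F⟩ := exists_face R (m := n - s.card) (by omega) s hs' (by omega)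
    rw [Nf_face R s hs', N_one]
    exact htwo _ _ F.R' (by omega)

end Pool.Agent.RA
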