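import Pool.Agent.Lib_helper16.RA.Euler
import Pool.Agent.Lib_helper54.RAComb

/-!
Transfer of combinatorial facts to faces.
-/

open Finset

namespace Pool.Agent.RA
variable {n : ℕ} {ι : Type} [Fintype ι] [DecidableEq ι] (R : RASys n ι)

lemma card_union_map (s : Finset ι) (t' : Finset (Lk R s)) :
    (s ∪ t'.map (Function.Embedding.subtype _)).card = s.card + t'.card := by
  rw [card_union_of_disjoint, card_map]
  rw [disjoint_left]
  intro x hx
  simp only [mem_map, Function.Embedding.coe_subtype, not_exists, not_and]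
  intro j _ hji
  exact j.2.1 (hji ▸ hx)

lemma Nf_face (s : Finset ι) (hs : IsCl R.G s) (k : ℕ) :
    Nf R.G s k = N (fun i j : Lk R s => R.G i.1 j.1) k := by
  classical
  unfold Nf N
  have e1 : (cliques R.G).filter (fun t => s ⊆ t ∧ t.card = s.card + k) =
      ((cliques R.G).filter (s ⊆ ·)).filter (fun t => t.card = s.card + k) := by
    rw [filter_filter]
  rw [e1, card_filter, card_filter, sum_cliques_link R s hs]
  refine sum_congr rfl fun t' _ => ?_
  rw [card_union_map]
  simp

lemma cf_face {m : ℕ} (hm : 2 ≤ m) (s : Finset ι) (hs : IsCl R.G s) (hcard : m + s.card = n) :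
    cf R.G s = (iv (fun i j : Lk R s => R.G i.1 j.1)).card := by
  obtain ⟨F⟩ := exists_face R hm s hs hcard
  have h := F.iv_bij hm hcard (fun _ => True) (fun _ => True) (fun _ _ _ _ => Iff.rfl)
  simp only [and_true, filter_true] at h
  unfold cf
  convert h

omit [DecidableEq ι] in
lemma mem_cliques' {G : ι → ι → ℝ} {s : Finset ι} : s ∈ cliques G ↔ IsCl G s := by
  simp [cliques]

lemma card_clique_le {s : Finset ι} (hs : s ∈ cliques R.G) : s.card ≤ n :=
  card_orthonormal_le s R.e (fun _ _ => R.unit _) (mem_cliques'.1 hs)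

lemma N_zero (G : ι → ι → ℝ) : N G 0 = 1 := by
  unfold N
  have : (cliques G).filter (fun s => s.card = 0) = {∅} := by
    ext s
    simp only [mem_filter, mem_singleton, card_eq_zero, mem_cliques']
    constructor
    · exact fun h => h.2
    · rintro rfl
      exact ⟨fun i hi => absurd hi (notMem_empty i), rfl⟩
  rw [this, card_singleton]

lemma N_one (G : ι → ι → ℝ) : N G 1 = Fintype.card ι := by
  unfold N
  have : (cliques G).filter (fun s => s.card = 1) = univ.map ⟨fun i => {i}, fun a b h => by
      simpa using h⟩ := by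
    ext s
    simp only [mem_filter, mem_cliques', card_eq_one, mem_map, mem_univ, true_and]
    constructor
    · rintro ⟨-, a, rfl⟩; exact ⟨a, rfl⟩
    · rintro ⟨a, rfl⟩; exact ⟨isCl_singleton G a, a, rfl⟩
  rw [this, card_map, card_univ]

/-- sums over cliques by cardinality -/
lemma sum_by_card {α : Type*} [CommRing α] (c : ℕ → α) :
    ∑ s ∈ cliques R.G, c s.card = ∑ k ∈ range (n + 1), c k * (N R.G k : α) := by
  rw [← sum_fiberwise_of_maps_to (t := range (n + 1)) (g := fun s : Finset ι => s.card)
    (fun s hs => mem_range.2 (Nat.lt_succ_of_le (card_clique_le R hs)))]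
  refine sum_congr rfl fun k _ => ?_
  rw [sum_congr rfl (g := fun _ => c k) (fun s hs => by rw [(mem_filter.1 hs).2]), sum_const, N,
    nsmul_eq_mul, mul_comm]

/-- Euler relation in terms of the numbers of faces -/
lemma euler_N (hn : 2 ≤ n) :
    (∑ k ∈ range (n + 1), (-1 : ℤ) ^ (n - k) * (N R.G k : ℤ)) + (iv R.G).card = 1 := by
  have h := euler hn R
  rw [sum_by_card R (fun k => (-1 : ℤ) ^ k), mul_sum] at h
  refine Eq.trans ?_ h
  congr 1
  refine sum_congr rfl fun k hk => ?_
  rw [mem_range] at hk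
  have h1 : (-1 : ℤ) ^ n = (-1) ^ (n - k) * (-1) ^ k := by rw [← pow_add]; congr 1; omega
  have h2 : (-1 : ℤ) ^ k * (-1) ^ k = 1 := by rw [← mul_pow]; norm_num
  rw [h1, ← mul_assoc, mul_assoc ((-1 : ℤ) ^ (n - k)), h2, mul_one]

/-- the two ends of a side of a polygon -/
lemma edge_two {ι : Type} [Fintype ι] [DecidableEq ι] (R : RASys 2 ι) (i : ι) :
    ((cliques R.G).filter (fun t => i ∈ t ∧ t.card = 2)).card +
      ((iv R.G).filter (fun v => i ∈ v)).card = 2 := by
  classical
  obtain ⟨j1, j2, hne, hL, -⟩ := exists_two R i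
  have hinj : Set.InjOn (fun k : ι => ({i, k} : Finset ι)) {k | k ≠ i} := by
    intro a ha b hb hab
    simp only at hab
    have h1 : a ∈ ({i, b} : Finset ι) := by rw [← hab]; simp
    rw [mem_insert, mem_singleton] at h1
    exact h1.resolve_left ha
  have h1 : (cliques R.G).filter (fun t => i ∈ t ∧ t.card = 2) =
      (univ.filter (fun k => k ≠ i ∧ R.G i k = 0)).image (fun k => ({i, k} : Finset ι)) := by
    ext t
    rw [mem_filter, ← and_assoc, cliques_two, mem_image]
    simp only [mem_filter, mem_univ, true_and]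
    constructor
    · rintro ⟨rfl | ⟨k, hki, hG, rfl⟩, hd⟩
      · simp at hd
      · exact ⟨k, ⟨hki, hG⟩, rfl⟩
    · rintro ⟨k, ⟨hki, hG⟩, rfl⟩
      exact ⟨Or.inr ⟨k, hki, hG, rfl⟩, card_pair hki.symm⟩
  have h2 : (iv R.G).filter (fun v => i ∈ v) =
      (univ.filter (fun k => k ≠ i ∧ R.G i k = -1)).image (fun k => ({i, k} : Finset ι)) := by
    ext t
    rw [mem_filter, iv_two, mem_image]
    simp only [mem_filter, mem_univ, true_and]
    constructor
    · rintro ⟨k, hki, hG, rfl⟩
      exact ⟨k, ⟨hki, hG⟩, rfl⟩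
    · rintro ⟨k, ⟨hki, hG⟩, rfl⟩
      exact ⟨k, hki, hG, rfl⟩
  rw [h1, h2, card_image_of_injOn (fun a ha b hb hab => hinj
      (by simp only [coe_filter, Set.mem_ofPred_eq, mem_univ, true_and] at ha; exact ha.1)
      (by simp only [coe_filter, Set.mem_ofPred_eq, mem_univ, true_and] at hb; exact hb.1) hab),
    card_image_of_injOn (fun a ha b hb hab => hinj
      (by simp only [coe_filter, Set.mem_ofPred_eq, mem_univ, true_and] at ha; exact ha.1)
      (by simp only [coe_filter, Set.mem_ofPred_eq, mem_univ, true_and] at hb; exact hb.1) hab),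
    ← card_union_of_disjoint]
  · refine Eq.trans ?_ (card_pair hne)
    congr 1
    ext k
    simp only [mem_union, mem_filter, mem_univ, true_and, mem_insert, mem_singleton]
    rw [← hL k]
    tauto
  · rw [disjoint_left]
    intro k
    simp only [mem_filter, mem_univ, true_and, not_and]
    rintro ⟨-, h4⟩ - h5
    rw [h4] at h5; norm_num at h5

lemma edge_all (s : Finset ι) (hs : IsCl R.G s) (hn : 2 ≤ n) (hcard : s.card + 1 = n) :
    Nf R.G s 1 + cf R.G s = 2 := by
  classical
  obtain ⟨i, hi⟩ : s.Nonempty := by rw [← card_pos]; omega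
  have hs' : IsCl R.G (s.erase i) := fun a ha b hb hab =>
    hs a (mem_of_mem_erase ha) b (mem_of_mem_erase hb) hab
  have hc' : 2 + (s.erase i).card = n := by rw [card_erase_of_mem hi]; omega
  obtain ⟨F⟩ := exists_face R le_rfl (s.erase i) hs' hc'
  let i' : Lk R (s.erase i) := ⟨i, notMem_erase i s, fun a ha =>
    hs a (mem_of_mem_erase ha) i hi (ne_of_mem_erase ha)⟩
  have h := edge_two F.R' i'
  rw [F.G'_eq] at h
  rw [← h]
  have hsub : ∀ v : Finset ι, s ⊆ v ↔ (s.erase i ⊆ v ∧ i ∈ v) := by
    intro v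
    constructor
    · intro h; exact ⟨(erase_subset _ _).trans h, h hi⟩
    · rintro ⟨h1, h2⟩ x hx
      by_cases hxi : x = i
      · rw [hxi]; exact h2
      · exact h1 (mem_erase.2 ⟨hxi, hx⟩)
  congr 1
  · unfold Nf
    have e1 : (cliques R.G).filter (fun t => s ⊆ t ∧ t.card = s.card + 1) =
        ((cliques R.G).filter (s.erase i ⊆ ·)).filter (fun t => i ∈ t ∧ t.card = s.card + 1) := by
      rw [filter_filter]
      refine filter_congr fun t _ => ?_
      rw [hsub]; tauto
    rw [e1, card_filter, card_filter, sum_cliques_link R _ hs']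
    refine sum_congr rfl fun t' _ => ?_
    rw [card_union_map]
    congr 1
    have e2 : i ∈ s.erase i ∪ t'.map (Function.Embedding.subtype _) ↔ i' ∈ t' := by
      simp only [mem_union, mem_map, Function.Embedding.coe_subtype]
      constructor
      · rintro (h | ⟨j, hj, hji⟩)
        · exact absurd h (notMem_erase i s)
        · have : j = i' := Subtype.ext hji
          rwa [← this]
      · intro h; exact Or.inr ⟨i', h, rfl⟩
    rw [e2, eq_iff_iff]
    constructor
    · rintro ⟨h1, h2⟩; exact ⟨h1, by omega⟩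
    · rintro ⟨h1, h2⟩; exact ⟨h1, by omega⟩
  · have h2 := F.iv_bij le_rfl hc' (fun v => i ∈ v) (fun v => i' ∈ v) (fun f v hf hsv => by
      rw [mem_subtype])
    unfold cf
    simp only [hsub]
    convert h2

end Pool.Agent.RA
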