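import Pool.Agent.Lib_helper16.RA.FaceIv

/-!
Crossing a wall: the inductive step of the Euler-Gram relation.
-/

open Finset

namespace Pool.Agent.RA
variable {n : ℕ} {ι : Type} [Fintype ι] [DecidableEq ι]

/-- Euler-Gram relation for a set `P` of visible walls -/
def ME (R : RASys n ι) (P : Finset ι) : Prop :=
  (-1 : ℤ) ^ n * ∑ s ∈ (cliques R.G).filter (fun s => Disjoint s P), (-1 : ℤ) ^ s.card
      + ((iv R.G).filter (fun v => Disjoint v P)).card
    = (if P = ∅ then 1 else 0) + (-1 : ℤ) ^ n * (if P = univ then 1 else 0)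

/-- crossing identity -/
def CI (R : RASys n ι) (i : ι) (P : Finset ι) : Prop :=
  (-1 : ℤ) ^ n * ∑ s ∈ (cliques R.G).filter (fun s => i ∈ s ∧ Disjoint s P), (-1 : ℤ) ^ s.card
      + ((iv R.G).filter (fun v => i ∈ v ∧ Disjoint v P)).card
    = (if P = ∅ then 1 else 0) - (-1 : ℤ) ^ n * (if insert i P = univ then 1 else 0)

lemma ME_of_CI {R : RASys n ι} {i : ι} {P : Finset ι} (hi : i ∉ P) (h : CI R i P)
    (h' : ME R (insert i P)) : ME R P := by
  classical
  unfold ME CI at *
  have hne : insert i P ≠ ∅ := insert_ne_empty _ _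
  have hnu : P ≠ univ := fun h => hi (h ▸ mem_univ i)
  rw [if_neg hne] at h'
  rw [if_neg hnu]
  have h1 : (cliques R.G).filter (fun s => Disjoint s P) =
      (cliques R.G).filter (fun s => Disjoint s (insert i P)) ∪
      (cliques R.G).filter (fun s => i ∈ s ∧ Disjoint s P) := by
    ext s
    simp only [mem_filter, mem_union, disjoint_insert_right]
    tauto
  have h2 : (iv R.G).filter (fun s => Disjoint s P) =
      (iv R.G).filter (fun s => Disjoint s (insert i P)) ∪
      (iv R.G).filter (fun s => i ∈ s ∧ Disjoint s P) := by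
    ext s
    simp only [mem_filter, mem_union, disjoint_insert_right]
    tauto
  have hd1 : Disjoint ((cliques R.G).filter (fun s => Disjoint s (insert i P)))
      ((cliques R.G).filter (fun s => i ∈ s ∧ Disjoint s P)) := by
    rw [disjoint_left]
    intro s
    simp only [mem_filter, disjoint_insert_right]
    tauto
  have hd2 : Disjoint ((iv R.G).filter (fun s => Disjoint s (insert i P)))
      ((iv R.G).filter (fun s => i ∈ s ∧ Disjoint s P)) := by
    rw [disjoint_left]
    intro s
    simp only [mem_filter, disjoint_insert_right]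
    tauto
  rw [h1, h2, sum_union hd1, card_union_of_disjoint hd2]
  push_cast
  rw [mul_add]
  linarith

lemma ME_univ (hn : 2 ≤ n) (R : RASys n ι) : ME R univ := by
  classical
  unfold ME
  obtain ⟨i0⟩ := R.nonempty_index (by omega)
  have hne : (univ : Finset ι) ≠ ∅ := Finset.Nonempty.ne_empty ⟨i0, mem_univ i0⟩
  have h1 : (cliques R.G).filter (fun s => Disjoint s univ) = {∅} := by
    ext s
    simp only [mem_filter, mem_singleton, cliques, mem_univ, true_and]
    constructor
    · rintro ⟨-, h⟩
      rwa [disjoint_comm, Finset.disjoint_iff_inter_eq_empty, univ_inter] at h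
    · rintro rfl
      exact ⟨fun i hi => absurd hi (notMem_empty i), disjoint_empty_left _⟩
  have h2 : (iv R.G).filter (fun v => Disjoint v univ) = ∅ := by
    rw [filter_eq_empty_iff]
    intro v hv hd
    rw [disjoint_comm, Finset.disjoint_iff_inter_eq_empty, univ_inter] at hd
    subst hd
    obtain ⟨f, hf⟩ := (mem_iv hn).1 hv
    obtain ⟨E, E', a, ha, hE', hfE, hEE, hA⟩ :=
      exists_frame R (by omega : 1 ≤ n) hf.ne hf.iso hf.memK
    have hpos : 0 < n - 1 := by omega
    exact absurd ((hf.mem _).2 (hfE ⟨0, hpos⟩)) (notMem_empty _)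
  rw [h1, h2, if_neg hne, if_pos rfl]
  simp

/-- crossing identity in dimension `≥ 3`, from the Euler-Gram relation of the facet -/
lemma CI_of_ME (hn : 3 ≤ n) (R : RASys n ι) (i : ι) (y : M n) (hyi : B y (R.e i) = 0)
    (hy : ∀ j, j ≠ i → B y (R.e j) ≠ 0)
    (hME : ∀ (F : Face R {i} (n - 1)) (y' : M (n - 1)), (∀ j, B y' (F.R'.e j) ≠ 0) →
      ME F.R' (F.R'.pos y')) : CI R i (R.pos y) := by
  classical
  have hs : IsCl R.G {i} := by
    intro a ha b hb hab
    rw [mem_singleton] at ha hb
    exact absurd (ha.trans hb.symm) hab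
  have hcard : (n - 1) + ({i} : Finset ι).card = n := by rw [card_singleton]; omega
  obtain ⟨F⟩ := exists_face R (by omega : 2 ≤ n - 1) {i} hs hcard
  obtain ⟨y', rfl⟩ := F.surj y (by simpa using hyi)
  have hne : ∀ j, B y' (F.R'.e j) ≠ 0 := fun j => by
    rw [F.B']; exact hy _ (fun h => j.2.1 (by simp [h]))
  have h := hME F y' hne
  unfold ME at h
  unfold CI
  -- sums
  have h1 : ∑ s ∈ (cliques R.G).filter (fun s => i ∈ s ∧ Disjoint s (R.pos (F.φ y'))),
      (-1 : ℤ) ^ s.card = - ∑ s ∈ (cliques F.R'.G).filter (fun s => Disjoint s (F.R'.pos y')),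
      (-1 : ℤ) ^ s.card := by
    have e1 : (cliques R.G).filter (fun s => i ∈ s ∧ Disjoint s (R.pos (F.φ y'))) =
        ((cliques R.G).filter (({i} : Finset ι) ⊆ ·)).filter
          (fun s => Disjoint s (R.pos (F.φ y'))) := by
      rw [filter_filter]
      simp only [singleton_subset_iff]
    rw [e1, sum_filter, sum_cliques_link R {i} hs, ← F.G'_eq, sum_filter, ← sum_neg_distrib]
    refine sum_congr rfl fun t' _ => ?_
    have hiP : i ∉ R.pos (F.φ y') := by rw [RASys.mem_pos, hyi]; exact lt_irrefl _
    have hdis : Disjoint ({i} ∪ t'.map (Function.Embedding.subtype _)) (R.pos (F.φ y')) ↔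
        Disjoint t' (F.R'.pos y') := by
      simp only [disjoint_left, mem_union, mem_singleton, mem_map,
        Function.Embedding.coe_subtype, RASys.mem_pos, F.B']
      constructor
      · intro h j hj
        exact h (Or.inr ⟨j, hj, rfl⟩)
      · rintro h a (rfl | ⟨j, hj, rfl⟩)
        · rw [hyi]; exact lt_irrefl _
        · exact h hj
    have hc : ({i} ∪ t'.map (Function.Embedding.subtype _) : Finset ι).card = t'.card + 1 := by
      rw [card_union_of_disjoint, card_singleton, card_map, add_comm]
      rw [disjoint_singleton_left]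
      simp only [mem_map, Function.Embedding.coe_subtype, not_exists, not_and]
      intro j _ hji
      exact j.2.1 (by simp [hji])
    by_cases hd : Disjoint t' (F.R'.pos y')
    · rw [if_pos (hdis.2 hd), if_pos hd, hc, pow_succ]; ring
    · rw [if_neg (fun h => hd (hdis.1 h)), if_neg hd]; simp
  have h2 : ((iv R.G).filter (fun v => i ∈ v ∧ Disjoint v (R.pos (F.φ y')))).card =
      ((iv F.R'.G).filter (fun v => Disjoint v (F.R'.pos y'))).card := by
    have := F.iv_bij (by omega) hcard (fun v => Disjoint v (R.pos (F.φ y')))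
      (fun v => Disjoint v (F.R'.pos y'))
      (fun f v hf hsv => F.disjoint_iff (by omega) hcard hf hsv)
    rw [← F.G'_eq] at this
    simp only [singleton_subset_iff] at this
    convert this
  have h3 : (F.R'.pos y' = ∅) ↔ (R.pos (F.φ y') = ∅) := by
    rw [RASys.pos_eq_empty, RASys.pos_eq_empty, F.mem_K']
  have h4 : (F.R'.pos y' = univ) ↔ (insert i (R.pos (F.φ y')) = univ) := by
    constructor
    · intro hu
      have e1 : -y' ∈ F.R'.K := fun j => by
        have : j ∈ F.R'.pos y' := hu ▸ mem_univ j
        rw [RASys.mem_pos] at this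
        rw [B_neg_left]; linarith
      have e2 := F.hK _ e1
      rw [eq_univ_iff_forall]
      intro j
      rw [mem_insert, RASys.mem_pos]
      by_cases hji : j = i
      · exact Or.inl hji
      · right
        have e3 := e2 j
        rw [map_neg, B_neg_left] at e3
        exact lt_of_le_of_ne (by linarith) (hy j hji).symm
    · intro hu
      rw [eq_univ_iff_forall] at hu ⊢
      intro j
      have := hu j.1
      rw [mem_insert, RASys.mem_pos] at this
      rw [RASys.mem_pos, F.B']
      exact this.resolve_left (fun h => j.2.1 (by simp [h]))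
  rw [h1, h2]
  simp only [h3, h4] at h
  have hpow : (-1 : ℤ) ^ n = - (-1 : ℤ) ^ (n - 1) := by
    obtain ⟨k, rfl⟩ : ∃ k, n = k + 1 := ⟨n - 1, by omega⟩
    rw [Nat.add_sub_cancel, pow_succ]; ring
  rw [hpow]
  linarith

end Pool.Agent.RA
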