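import Pool.Agent.Lib_helper16.RA.Cross

/-!
Sides of right-angled polygons: the crossing identity in dimension 2.
-/

open Finset

namespace Pool.Agent.RA

lemma decomp_M1 {q : M 1} (hq : B q q < 0) : ∃ d : M 1, B d q = 0 ∧ 0 < B d d ∧
    ∀ x, ∃ α β : ℝ, x = α • q + β • d := by
  have hq2 : q.2 ≠ 0 := by
    intro h
    simp [B, h] at hq
    nlinarith [mul_self_nonneg (q.1 0)]
  have hqq : q.1 0 * q.1 0 - q.2 * q.2 < 0 := by simpa [B] using hq
  refine ⟨(fun _ => q.2, q.1 0), ?_, ?_, ?_⟩
  · simp [B]; ring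
  · simp [B]; linarith
  · intro x
    refine ⟨B x q / B q q, (x.1 0 * q.2 - x.2 * q.1 0) / -(B q q), ?_⟩
    have hB : B q q = q.1 0 * q.1 0 - q.2 * q.2 := by simp [B]
    have hBx : B x q = x.1 0 * q.1 0 - x.2 * q.2 := by simp [B]
    have hne : q.1 0 ^ 2 - q.2 ^ 2 ≠ 0 := by
      intro h; apply hqq.ne; linarith
    rw [hB, hBx, show q.1 0 * q.1 0 - q.2 * q.2 = q.1 0 ^ 2 - q.2 ^ 2 by ring]
    ext a
    · have ha : a = 0 := Subsingleton.elim _ _
      subst ha
      simp only [Prod.fst_add, Prod.smul_fst, Pi.add_apply, Pi.smul_apply, smul_eq_mul]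
      field_simp
      ring
    · simp only [Prod.snd_add, Prod.smul_snd, smul_eq_mul]
      field_simp
      ring

variable {ι : Type} [Fintype ι] [DecidableEq ι] (R : RASys 2 ι) (i : ι)

lemma isCl_singleton {ι : Type} (G : ι → ι → ℝ) (i : ι) : IsCl G {i} := by
  intro a ha b hb hab
  rw [mem_singleton] at ha hb
  exact absurd (ha.trans hb.symm) hab

/-- `d` is a direction of the side `i` -/
structure IsDir (d : M 2) : Prop where
  perp : B d (R.e i) = 0
  perp' : B d (R.ps {i}) = 0
  pos : 0 < B d d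
  span : ∀ x, B x (R.e i) = 0 → ∃ α β : ℝ, x = α • R.ps {i} + β • d

lemma IsDir.neg {d : M 2} (h : IsDir R i d) : IsDir R i (-d) where
  perp := by rw [B_neg_left, h.perp, neg_zero]
  perp' := by rw [B_neg_left, h.perp', neg_zero]
  pos := by rw [B_neg_left, B_neg_right, neg_neg]; exact h.pos
  span := fun x hx => by
    obtain ⟨α, β, rfl⟩ := h.span x hx
    exact ⟨α, -β, by simp⟩

lemma exists_dir : ∃ d, IsDir R i d := by
  obtain ⟨φ, hφ, hφi, hφr⟩ := exists_emb_one (R.e i) (R.unit i)
  obtain ⟨q, hq⟩ := hφr (R.ps {i}) (R.B_ps_mem (isCl_singleton _ i) (mem_singleton_self i))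
  have hqq : B q q < 0 := by rw [← hφ, hq]; exact R.B_ps_ps (isCl_singleton _ i)
  obtain ⟨d, hd, hdd, hspan⟩ := decomp_M1 hqq
  refine ⟨φ d, hφi d, by rw [← hq, hφ]; exact hd, by rw [hφ]; exact hdd, fun x hx => ?_⟩
  obtain ⟨x', rfl⟩ := hφr x hx
  obtain ⟨α, β, rfl⟩ := hspan x'
  exact ⟨α, β, by rw [map_add, map_smul, map_smul, hq]⟩

lemma B_ps_singleton_neg {k : ι} (hk : k ≠ i) : B (R.ps {i}) (R.e k) < 0 :=
  R.B_ps_notMem (by simpa using hk)

lemma ps_singleton_perp : B (R.ps {i}) (R.e i) = 0 :=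
  R.B_ps_mem (isCl_singleton _ i) (mem_singleton_self i)

/-- the vertex between the sides `i` and `k` -/
lemma exists_corner {k : ι} (hk : k ≠ i) (hG : R.G i k = 0 ∨ R.G i k = -1) :
    ∃ r ∈ R.K, r ≠ 0 ∧ B r (R.e i) = 0 ∧ B r (R.e k) = 0 := by
  rcases hG with hG | hG
  · have hs : IsCl R.G {i, k} := by
      intro a ha b hb hab
      simp only [mem_insert, mem_singleton] at ha hb
      rcases ha with rfl | rfl <;> rcases hb with rfl | rfl
      · exact absurd rfl hab
      · exact hG
      · rw [R.G_comm]; exact hG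
      · exact absurd rfl hab
    refine ⟨R.ps {i, k}, R.ps_mem_K hs, ?_, R.B_ps_mem hs (by simp), R.B_ps_mem hs (by simp)⟩
    intro h0
    have := R.B_ps_ps hs
    rw [h0] at this; simp at this
  · have hG' : B (R.e i) (R.e k) = -1 := hG
    refine ⟨R.e i + R.e k, ?_, ?_, ?_, ?_⟩
    · intro j
      rw [B_add_left]
      rcases eq_or_ne i j with rfl | hij
      · rw [R.unit, B_comm, hG']; norm_num
      · rcases eq_or_ne k j with rfl | hkj
        · rw [R.unit, hG']; norm_num
        · exact add_nonpos (R.G_nonpos hij) (R.G_nonpos hkj)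
    · intro h0
      have h1 : B (R.e i + R.e k) R.p < 0 := by
        rw [B_add_left, B_comm _ R.p, B_comm _ R.p]
        have := R.pneg i; have := R.pneg k; linarith
      rw [h0] at h1; simp at h1
    · rw [B_add_left, R.unit, B_comm, hG']; norm_num
    · rw [B_add_left, R.unit, hG']; norm_num

lemma B_ps_of_perp {r : M 2} (hr : B r (R.e i) = 0) : B r (R.ps {i}) = B r R.p := by
  rw [B_comm, R.B_ps]
  simp only [sum_singleton]
  rw [B_comm (R.e i), hr, B_comm r]; ring

/-- three walls of a polygon through a point coincide -/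
lemma eq_of_three {y : M 2} (hyK : y ∈ R.K) (hy0 : y ≠ 0) {j k : ι} (hji : j ≠ i) (hki : k ≠ i)
    (hyi : B y (R.e i) = 0) (hyj : B y (R.e j) = 0) (hyk : B y (R.e k) = 0) : j = k := by
  by_contra hjk
  by_cases h0 : R.G i j = 0 ∧ R.G i k = 0 ∧ R.G j k = 0
  · have h1 := card_orthonormal_le (n := 2) {i, j, k} R.e (fun _ _ => R.unit _) (by
      obtain ⟨h1, h2, h3⟩ := h0
      intro a ha b hb hab
      simp only [mem_insert, mem_singleton] at ha hb
      rcases ha with rfl | rfl | rfl <;> rcases hb with rfl | rfl | rfl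
      · exact absurd rfl hab
      · exact h1
      · exact h2
      · rw [B_comm]; exact h1
      · exact absurd rfl hab
      · exact h3
      · rw [B_comm]; exact h2
      · rw [B_comm]; exact h3
      · exact absurd rfl hab)
    rw [card_insert_of_notMem (by simp [hji.symm, hki.symm]), card_insert_of_notMem (by simpa using hjk),
      card_singleton] at h1
    omega
  · have hyy : B y y = 0 := by
      by_cases h1 : R.G i j = 0
      · by_cases h2 : R.G i k = 0
        · have h3 : R.G j k ≠ 0 := fun h3 => h0 ⟨h1, h2, h3⟩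
          exact (R.eq_of_perp_two (by norm_num) hyK hy0 hjk h3 hyj hyk).1
        · exact (R.eq_of_perp_two (by norm_num) hyK hy0 hki.symm h2 hyi hyk).1
      · exact (R.eq_of_perp_two (by norm_num) hyK hy0 hji.symm h1 hyi hyj).1
    obtain ⟨E, E', a, ha, hE', hfE, hEE, hA⟩ := exists_frame R (by norm_num) hy0 hyy hyK
    have hsub : ∀ k : Fin (2 - 1), k = ⟨0, by norm_num⟩ := fun k => Fin.ext (by have := k.2; simp only; omega)
    obtain ⟨x1, h1⟩ := (hA i).1 hyi
    obtain ⟨x2, h2⟩ := (hA j).1 hyj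
    obtain ⟨x3, h3⟩ := (hA k).1 hyk
    rw [hsub x1] at h1
    rw [hsub x2] at h2
    rw [hsub x3] at h3
    rcases h1 with h1 | h1 <;> rcases h2 with h2 | h2 <;> rcases h3 with h3 | h3 <;>
      simp_all

/-- one end of a side -/
lemma exists_end {d : M 2} (hd : IsDir R i d) : ∃ (j : ι) (t : ℝ), 0 < t ∧ j ≠ i ∧
    (R.G i j = 0 ∨ R.G i j = -1) ∧ 0 < B d (R.e j) ∧
    (∀ k, 0 < B d (R.e k) → k ≠ i → (R.G i k = 0 ∨ R.G i k = -1) → k = j) ∧
    B (R.ps {i}) (R.e j) + t * B d (R.e j) = 0 ∧
    ∀ k, B (R.ps {i}) (R.e k) + t * B d (R.e k) ≤ 0 := by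
  classical
  have hpsK : R.ps {i} ∈ R.K := R.ps_mem_K (isCl_singleton _ i)
  have hps := R.B_ps_ps (isCl_singleton R.G i)
  -- some wall is crossed
  have hex : ∃ j, 0 < B d (R.e j) := by
    by_contra h
    push Not at h
    have h1 : ∀ t : ℝ, 0 ≤ t → R.ps {i} + t • d ∈ R.K := fun t ht k => by
      rw [B_add_left, B_smul_left]
      exact add_nonpos (hpsK k) (mul_nonpos_of_nonneg_of_nonpos ht (h k))
    set c := -(B (R.ps {i}) (R.ps {i})) with hc
    have hcpos : 0 < c := by linarith
    set t := (c / B d d) + 1 with ht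
    have htpos : 0 < c / B d d := div_pos hcpos hd.pos
    have h2 := R.cone _ (h1 t (by linarith))
    have h3 : B (R.ps {i} + t • d) (R.ps {i} + t • d) = -c + t ^ 2 * B d d := by
      rw [B_add_left, B_add_right, B_add_right, B_smul_left, B_smul_left, B_smul_right,
        B_smul_right, B_comm _ d, hd.perp', hc]; ring
    rw [h3] at h2
    have h4 : c = (c / B d d) * B d d := by rw [div_mul_cancel₀ _ hd.pos.ne']
    have h5 : c / B d d < t ^ 2 := by rw [ht]; nlinarith
    have h6 : (c / B d d) * B d d < t ^ 2 * B d d := mul_lt_mul_of_pos_right h5 hd.pos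
    linarith
  obtain ⟨j0, hj0⟩ := hex
  obtain ⟨j, hj, hmin⟩ := exists_min_image (univ.filter (fun j => 0 < B d (R.e j)))
    (fun j => -(B (R.ps {i}) (R.e j)) / (B d (R.e j))) ⟨j0, by simpa using hj0⟩
  simp only [mem_filter, mem_univ, true_and] at hj hmin
  have hji : j ≠ i := by
    rintro rfl; rw [hd.perp] at hj; exact lt_irrefl _ hj
  have hpj := B_ps_singleton_neg R i hji
  set t := -(B (R.ps {i}) (R.e j)) / (B d (R.e j)) with ht
  have ht0 : 0 < t := div_pos (by linarith) hj
  have htj : B (R.ps {i}) (R.e j) + t * B d (R.e j) = 0 := by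
    rw [ht, div_mul_cancel₀ _ hj.ne']; ring
  have htk : ∀ k, B (R.ps {i}) (R.e k) + t * B d (R.e k) ≤ 0 := by
    intro k
    by_cases hk : 0 < B d (R.e k)
    · have h1 := hmin k hk
      rw [le_div_iff₀ hk] at h1
      linarith
    · push Not at hk
      exact add_nonpos (hpsK k) (mul_nonpos_of_nonneg_of_nonpos ht0.le hk)
  set y := R.ps {i} + t • d with hy
  have hyK : y ∈ R.K := fun k => by rw [hy, B_add_left, B_smul_left]; exact htk k
  have hy0 : y ≠ 0 := by
    intro h0
    have h1 : B y (R.ps {i}) = B (R.ps {i}) (R.ps {i}) := by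
      rw [hy, B_add_left, B_smul_left, hd.perp']; ring
    rw [h0, B_zero_left] at h1
    linarith
  have hyi : B y (R.e i) = 0 := by
    rw [hy, B_add_left, B_smul_left, hd.perp, ps_singleton_perp]; ring
  have hyj : B y (R.e j) = 0 := by rw [hy, B_add_left, B_smul_left]; exact htj
  refine ⟨j, t, ht0, hji, ?_, hj, ?_, htj, htk⟩
  · by_cases h : R.G i j = 0
    · exact Or.inl h
    · exact Or.inr (R.eq_of_perp_two (by norm_num) hyK hy0 hji.symm h hyi hyj).2.1
  · intro k hk hki hG
    obtain ⟨r, hrK, hr0, hri, hrk⟩ := exists_corner R i hki hG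
    obtain ⟨α, β, hr⟩ := hd.span r hri
    have hα : 0 < α := by
      have h1 : B r (R.ps {i}) < 0 := by
        rw [B_ps_of_perp R i hri]; exact R.K_time (by norm_num) hrK hr0
      rw [hr, B_add_left, B_smul_left, B_smul_left, hd.perp', mul_zero, add_zero] at h1
      by_contra h
      push Not at h
      have := mul_nonneg_of_nonpos_of_nonpos h hps.le
      linarith
    have h1 : α * B (R.ps {i}) (R.e k) + β * B d (R.e k) = 0 := by
      rw [hr, B_add_left, B_smul_left, B_smul_left] at hrk; exact hrk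
    have h2 : α * B (R.ps {i}) (R.e j) + β * B d (R.e j) ≤ 0 := by
      have := hrK j
      rw [hr, B_add_left, B_smul_left, B_smul_left] at this; exact this
    have h3 := htk k
    -- β = α t
    have h4 : β ≤ α * t := by
      have h5 : α * B (R.ps {i}) (R.e j) = -(α * t * B d (R.e j)) := by
        have : B (R.ps {i}) (R.e j) = -(t * B d (R.e j)) := by linarith
        rw [this]; ring
      rw [h5] at h2
      have h6 : β * B d (R.e j) ≤ α * t * B d (R.e j) := by linarith
      exact le_of_mul_le_mul_right h6 hj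
    have h5 : α * t ≤ β := by
      have h6 : α * (B (R.ps {i}) (R.e k) + t * B d (R.e k)) ≤ 0 :=
        mul_nonpos_of_nonneg_of_nonpos hα.le h3
      have h7 : α * t * B d (R.e k) ≤ β * B d (R.e k) := by nlinarith
      exact le_of_mul_le_mul_right h7 hk
    have h6 : β = α * t := le_antisymm h4 h5
    have hyk : B y (R.e k) = 0 := by
      have h7 : r = α • y := by rw [hr, hy, h6, smul_add, smul_smul]
      rw [h7, B_smul_left] at hrk
      exact (mul_eq_zero.1 hrk).resolve_left hα.ne'
    exact eq_of_three R i hyK hy0 hki hji hyi hyk hyj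

/-- the two neighbours of a side -/
lemma exists_two : ∃ j1 j2 : ι, j1 ≠ j2 ∧
    (∀ k, (k ≠ i ∧ (R.G i k = 0 ∨ R.G i k = -1)) ↔ (k = j1 ∨ k = j2)) ∧
    ∀ y : M 2, B y (R.e i) = 0 → B y (R.e j1) ≤ 0 → B y (R.e j2) ≤ 0 → y ∈ R.K := by
  obtain ⟨d, hd⟩ := exists_dir R i
  obtain ⟨j1, t1, ht1, hj1, hG1, hd1, hu1, he1, hl1⟩ := exists_end R i hd
  obtain ⟨j2, t2, ht2, hj2, hG2, hd2, hu2, he2, hl2⟩ := exists_end R i hd.neg
  simp only [B_neg_left] at hd2 hu2 he2 hl2
  refine ⟨j1, j2, ?_, ?_, ?_⟩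
  · rintro rfl; linarith
  · intro k
    constructor
    · rintro ⟨hki, hG⟩
      obtain ⟨r, hrK, hr0, hri, hrk⟩ := exists_corner R i hki hG
      obtain ⟨α, β, hr⟩ := hd.span r hri
      have hne : B d (R.e k) ≠ 0 := by
        intro h0
        rw [hr, B_add_left, B_smul_left, B_smul_left, h0, mul_zero, add_zero] at hrk
        have hα : α = 0 := (mul_eq_zero.1 hrk).resolve_right (B_ps_singleton_neg R i hki).ne
        rw [hα, zero_smul, zero_add] at hr
        have h1 := R.K_time (by norm_num) hrK hr0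
        rw [← B_ps_of_perp R i hri, hr, B_smul_left, hd.perp', mul_zero] at h1
        exact lt_irrefl _ h1
      rcases lt_or_gt_of_ne hne with h | h
      · exact Or.inr (hu2 k (by linarith) hki hG)
      · exact Or.inl (hu1 k h hki hG)
    · rintro (rfl | rfl)
      · exact ⟨hj1, hG1⟩
      · exact ⟨hj2, hG2⟩
  · intro y hyi hy1 hy2
    obtain ⟨α, β, hy⟩ := hd.span y hyi
    rw [hy, B_add_left, B_smul_left, B_smul_left] at hy1 hy2
    have e1 : B (R.ps {i}) (R.e j1) = -(t1 * B d (R.e j1)) := by linarith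
    have e2 : B (R.ps {i}) (R.e j2) = t2 * B d (R.e j2) := by linarith
    rw [e1] at hy1
    rw [e2] at hy2
    have h1 : β ≤ α * t1 := by
      have : β * B d (R.e j1) ≤ α * t1 * B d (R.e j1) := by linarith
      exact le_of_mul_le_mul_right this hd1
    have h2 : -β ≤ α * t2 := by
      have : -β * (-B d (R.e j2)) ≤ α * t2 * (-B d (R.e j2)) := by linarith
      exact le_of_mul_le_mul_right this hd2
    have hsum : 0 < t1 + t2 := by linarith
    have hK1 : R.ps {i} + t1 • d ∈ R.K := fun k => by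
      rw [B_add_left, B_smul_left]; exact hl1 k
    have hK2 : R.ps {i} - t2 • d ∈ R.K := fun k => by
      rw [B_sub_left, B_smul_left]
      have := hl2 k
      linarith
    have hy' : y = ((β + α * t2) / (t1 + t2)) • (R.ps {i} + t1 • d) +
        ((α * t1 - β) / (t1 + t2)) • (R.ps {i} - t2 • d) := by
      have h3 : ((β + α * t2) / (t1 + t2)) + ((α * t1 - β) / (t1 + t2)) = α := by
        field_simp; ring
      have h4 : ((β + α * t2) / (t1 + t2)) * t1 - ((α * t1 - β) / (t1 + t2)) * t2 = β := by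
        field_simp; ring
      have h5 : ((β + α * t2) / (t1 + t2)) • (R.ps {i} + t1 • d) +
        ((α * t1 - β) / (t1 + t2)) • (R.ps {i} - t2 • d) =
        (((β + α * t2) / (t1 + t2)) + ((α * t1 - β) / (t1 + t2))) • R.ps {i} +
        (((β + α * t2) / (t1 + t2)) * t1 - ((α * t1 - β) / (t1 + t2)) * t2) • d := by
        module
      rw [h5, h3, h4, hy]
    rw [hy']
    exact R.K_add (R.K_smul hK1 (div_nonneg (by linarith) hsum.le))
      (R.K_smul hK2 (div_nonneg (by linarith) hsum.le))

end Pool.Agent.RA
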