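import Pool.Agent.Lib_helper16.RA.Dim2

/-!
The crossing identity in dimension 2.
-/

open Finset

namespace Pool.Agent.RA
variable {ι : Type} [Fintype ι] [DecidableEq ι] (R : RASys 2 ι) (i : ι)

lemma iv_two (v : Finset ι) : (v ∈ iv R.G ∧ i ∈ v) ↔ ∃ k, k ≠ i ∧ R.G i k = -1 ∧ v = {i, k} := by
  have hsub : ∀ k : Fin (2 - 1), k = ⟨0, by norm_num⟩ := fun k =>
    Fin.ext (by have := k.2; simp only; omega)
  have key : ∀ f v, IsIv R f v → ∀ a ∈ v, ∃ k, k ≠ a ∧ R.G a k = -1 ∧ v = {a, k} := by
    intro f v hf a ha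
    obtain ⟨E, E', c, hc, hE', hfE, hEE, hA⟩ := exists_frame R (by norm_num) hf.ne hf.iso hf.memK
    obtain ⟨k, hka, hfk, hG, -⟩ := R.exists_partner (by norm_num) hf.ne hf.iso hf.memK
      ((hf.mem a).1 ha)
    refine ⟨k, hka, hG, ?_⟩
    ext x
    rw [hf.mem, hA, mem_insert, mem_singleton]
    obtain ⟨x1, h1⟩ := (hA a).1 ((hf.mem a).1 ha)
    obtain ⟨x2, h2⟩ := (hA k).1 hfk
    rw [hsub x1] at h1
    rw [hsub x2] at h2
    constructor
    · rintro ⟨x3, h3⟩
      rw [hsub x3] at h3
      rcases h1 with h1 | h1 <;> rcases h2 with h2 | h2 <;> rcases h3 with h3 | h3 <;>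
        simp_all
    · rintro (rfl | rfl)
      · exact ⟨_, h1⟩
      · exact ⟨_, h2⟩
  constructor
  · rintro ⟨hv, hi⟩
    obtain ⟨f, hf⟩ := (mem_iv le_rfl).1 hv
    exact key f v hf i hi
  · rintro ⟨k, hki, hG, rfl⟩
    refine ⟨?_, by simp⟩
    classical
    have hmem : star R.G i k ∈ iv R.G := by
      simp only [iv, mem_image, mem_filter, mem_univ, true_and]
      exact ⟨(i, k), hG, rfl⟩
    have hi : i ∈ star R.G i k := by
      simp only [star, mem_filter, mem_univ, true_and]
      rw [R.G_self, hG]; norm_num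
    have hk : k ∈ star R.G i k := by
      simp only [star, mem_filter, mem_univ, true_and]
      rw [R.G_self, R.G_comm, hG]; norm_num
    obtain ⟨f, hf⟩ := (mem_iv le_rfl).1 hmem
    obtain ⟨k', -, -, hv⟩ := key f _ hf i hi
    have : k' = k := by
      rw [hv, mem_insert, mem_singleton] at hk
      exact (hk.resolve_left hki).symm
    rw [← this, ← hv]
    exact hmem

lemma cliques_two (t : Finset ι) : (t ∈ cliques R.G ∧ i ∈ t) ↔
    t = {i} ∨ ∃ k, k ≠ i ∧ R.G i k = 0 ∧ t = {i, k} := by
  constructor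
  · rintro ⟨ht, hi⟩
    simp only [cliques, mem_filter, mem_univ, true_and] at ht
    have hc := card_orthonormal_le t R.e (fun _ _ => R.unit _) ht
    by_cases h : ∃ k ∈ t, k ≠ i
    · obtain ⟨k, hk, hki⟩ := h
      right
      refine ⟨k, hki, ht i hi k hk hki.symm, ?_⟩
      symm
      apply eq_of_subset_of_card_le
      · intro x hx
        rw [mem_insert, mem_singleton] at hx
        rcases hx with rfl | rfl <;> assumption
      · rw [card_pair hki.symm]; exact hc
    · push Not at h
      left
      ext x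
      rw [mem_singleton]
      constructor
      · exact h x
      · rintro rfl; exact hi
  · rintro (rfl | ⟨k, hki, hG, rfl⟩)
    · refine ⟨?_, mem_singleton_self i⟩
      simp only [cliques, mem_filter, mem_univ, true_and]
      exact isCl_singleton _ i
    · refine ⟨?_, by simp⟩
      simp only [cliques, mem_filter, mem_univ, true_and]
      intro a ha b hb hab
      simp only [mem_insert, mem_singleton] at ha hb
      rcases ha with rfl | rfl <;> rcases hb with rfl | rfl
      · exact absurd rfl hab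
      · exact hG
      · rw [R.G_comm]; exact hG
      · exact absurd rfl hab

lemma CI_two (y : M 2) (hyi : B y (R.e i) = 0)
    (hy : ∀ j, j ≠ i → B y (R.e j) ≠ 0) : CI R i (R.pos y) := by
  classical
  obtain ⟨j1, j2, hne, hL, hK⟩ := exists_two R i
  set P := R.pos y with hP
  have hiP : i ∉ P := by rw [RASys.mem_pos, hyi]; exact lt_irrefl _
  have hinj : Set.InjOn (fun k : ι => ({i, k} : Finset ι)) {k | k ≠ i} := by
    intro a ha b hb hab
    simp only at hab
    have h1 : a ∈ ({i, b} : Finset ι) := by rw [← hab]; simp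
    rw [mem_insert, mem_singleton] at h1
    exact h1.resolve_left ha
  have h1 : (cliques R.G).filter (fun s => i ∈ s ∧ Disjoint s P) =
      insert {i} ((univ.filter (fun k => k ≠ i ∧ R.G i k = 0 ∧ k ∉ P)).image
        (fun k => ({i, k} : Finset ι))) := by
    ext t
    rw [mem_filter, ← and_assoc, cliques_two, mem_insert, mem_image]
    simp only [mem_filter, mem_univ, true_and]
    constructor
    · rintro ⟨rfl | ⟨k, hki, hG, rfl⟩, hd⟩
      · exact Or.inl rfl
      · right
        refine ⟨k, ⟨hki, hG, ?_⟩, rfl⟩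
        rw [disjoint_left] at hd
        exact hd (by simp)
    · rintro (rfl | ⟨k, ⟨hki, hG, hkP⟩, rfl⟩)
      · exact ⟨Or.inl rfl, by rw [disjoint_singleton_left]; exact hiP⟩
      · refine ⟨Or.inr ⟨k, hki, hG, rfl⟩, ?_⟩
        rw [disjoint_left]
        intro x hx
        rw [mem_insert, mem_singleton] at hx
        rcases hx with rfl | rfl <;> assumption
  have h2 : (iv R.G).filter (fun s => i ∈ s ∧ Disjoint s P) =
      ((univ.filter (fun k => k ≠ i ∧ R.G i k = -1 ∧ k ∉ P)).image
        (fun k => ({i, k} : Finset ι))) := by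
    ext t
    rw [mem_filter, ← and_assoc, iv_two, mem_image]
    simp only [mem_filter, mem_univ, true_and]
    constructor
    · rintro ⟨⟨k, hki, hG, rfl⟩, hd⟩
      refine ⟨k, ⟨hki, hG, ?_⟩, rfl⟩
      rw [disjoint_left] at hd
      exact hd (by simp)
    · rintro ⟨k, ⟨hki, hG, hkP⟩, rfl⟩
      refine ⟨⟨k, hki, hG, rfl⟩, ?_⟩
      rw [disjoint_left]
      intro x hx
      rw [mem_insert, mem_singleton] at hx
      rcases hx with rfl | rfl <;> assumption
  have h3 : ({i} : Finset ι) ∉ ((univ.filter (fun k => k ≠ i ∧ R.G i k = 0 ∧ k ∉ P)).image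
        (fun k => ({i, k} : Finset ι))) := by
    rw [mem_image]
    rintro ⟨k, hk, hki⟩
    simp only [mem_filter, mem_univ, true_and] at hk
    have : k ∈ ({i} : Finset ι) := by rw [← hki]; simp
    exact hk.1 (by simpa using this)
  have hcount : (univ.filter (fun k => k ≠ i ∧ R.G i k = 0 ∧ k ∉ P)).card +
      (univ.filter (fun k => k ≠ i ∧ R.G i k = -1 ∧ k ∉ P)).card =
      (({j1, j2} : Finset ι).filter (· ∉ P)).card := by
    rw [← card_union_of_disjoint]
    · congr 1
      ext k
      simp only [mem_union, mem_filter, mem_univ, true_and, mem_insert, mem_singleton]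
      rw [← hL k]
      tauto
    · rw [disjoint_left]
      intro k
      simp only [mem_filter, mem_univ, true_and, not_and]
      rintro ⟨-, h4, -⟩ - h5
      rw [h4] at h5; norm_num at h5
  unfold CI
  rw [h1, h2, sum_insert h3, sum_image (fun a ha b hb hab => hinj
      (by simp only [coe_filter, Set.mem_ofPred_eq, mem_univ, true_and] at ha; exact ha.1)
      (by simp only [coe_filter, Set.mem_ofPred_eq, mem_univ, true_and] at hb; exact hb.1) hab),
    card_image_of_injOn (fun a ha b hb hab => hinj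
      (by simp only [coe_filter, Set.mem_ofPred_eq, mem_univ, true_and] at ha; exact ha.1)
      (by simp only [coe_filter, Set.mem_ofPred_eq, mem_univ, true_and] at hb; exact hb.1) hab)]
  have h4 : ∑ k ∈ univ.filter (fun k => k ≠ i ∧ R.G i k = 0 ∧ k ∉ P),
      (-1 : ℤ) ^ ({i, k} : Finset ι).card =
      (univ.filter (fun k => k ≠ i ∧ R.G i k = 0 ∧ k ∉ P)).card := by
    rw [sum_congr rfl (g := fun _ => (1 : ℤ))]
    · simp
    · intro k hk
      simp only [mem_filter, mem_univ, true_and] at hk
      rw [card_pair hk.1.symm]; norm_num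
  rw [h4, card_singleton]
  have h5 : ((univ.filter (fun k => k ≠ i ∧ R.G i k = 0 ∧ k ∉ P)).card : ℤ) +
      (univ.filter (fun k => k ≠ i ∧ R.G i k = -1 ∧ k ∉ P)).card =
      (({j1, j2} : Finset ι).filter (· ∉ P)).card := by exact_mod_cast hcount
  -- emptiness and fullness
  have e1 : P = ∅ ↔ j1 ∉ P ∧ j2 ∉ P := by
    constructor
    · intro h; rw [h]; exact ⟨notMem_empty _, notMem_empty _⟩
    · rintro ⟨h1, h2⟩
      rw [hP, RASys.mem_pos, not_lt] at h1 h2
      rw [hP, RASys.pos_eq_empty]
      exact hK y hyi h1 h2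
  have e2 : insert i P = univ ↔ j1 ∈ P ∧ j2 ∈ P := by
    have hj1 : j1 ≠ i := ((hL j1).2 (Or.inl rfl)).1
    have hj2 : j2 ≠ i := ((hL j2).2 (Or.inr rfl)).1
    constructor
    · intro h
      have g1 : j1 ∈ insert i P := h ▸ mem_univ _
      have g2 : j2 ∈ insert i P := h ▸ mem_univ _
      rw [mem_insert] at g1 g2
      exact ⟨g1.resolve_left hj1, g2.resolve_left hj2⟩
    · rintro ⟨h1, h2⟩
      rw [hP, RASys.mem_pos] at h1 h2
      have h3 := hK (-y) (by rw [B_neg_left, hyi, neg_zero]) (by rw [B_neg_left]; linarith)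
        (by rw [B_neg_left]; linarith)
      rw [eq_univ_iff_forall]
      intro j
      rw [mem_insert, hP, RASys.mem_pos]
      by_cases hji : j = i
      · exact Or.inl hji
      · right
        have := h3 j
        rw [B_neg_left] at this
        exact lt_of_le_of_ne (by linarith) (hy j hji).symm
  simp only [e1, e2]
  by_cases c1 : j1 ∈ P <;> by_cases c2 : j2 ∈ P <;>
    simp [filter_insert, filter_singleton, c1, c2, card_pair hne] at h5 ⊢ <;> linarith

end Pool.Agent.RA
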