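import Pool.Agent.Lib_helper16.RA.Frame

/-!
Faces of right-angled systems.
-/

open Finset

namespace Pool.Agent.RA
variable {n : ℕ} {ι : Type} [Fintype ι] [DecidableEq ι] (R : RASys n ι)

namespace RASys

/-- base point of the face of a clique -/
noncomputable def ps (s : Finset ι) : M n := R.p - ∑ i ∈ s, B R.p (R.e i) • R.e i

lemma sum_clique {s : Finset ι} (hs : IsCl R.G s) (c : ι → ℝ) {i : ι} (hi : i ∈ s) :
    ∑ k ∈ s, c k * B (R.e k) (R.e i) = c i := by
  rw [sum_eq_single i]
  · rw [R.unit, mul_one]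
  · intro j hj hji
    have : B (R.e j) (R.e i) = 0 := hs j hj i hi hji
    rw [this, mul_zero]
  · exact fun h => absurd hi h

lemma B_ps (s : Finset ι) (y : M n) :
    B (R.ps s) y = B R.p y - ∑ i ∈ s, B R.p (R.e i) * B (R.e i) y := by
  simp only [ps, B_sub_left, B_sum_left, B_smul_left]

lemma B_ps_mem {s : Finset ι} (hs : IsCl R.G s) {i : ι} (hi : i ∈ s) :
    B (R.ps s) (R.e i) = 0 := by
  rw [B_ps, R.sum_clique hs _ hi, sub_self]

lemma B_ps_notMem {s : Finset ι} {i : ι} (hi : i ∉ s) :
    B (R.ps s) (R.e i) < 0 := by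
  rw [B_ps]
  have h1 := R.pneg i
  have h2 : 0 ≤ ∑ k ∈ s, B R.p (R.e k) * B (R.e k) (R.e i) := by
    refine sum_nonneg fun k hk => ?_
    exact mul_nonneg_of_nonpos_of_nonpos (R.pneg k).le (R.G_nonpos (fun h => hi (h ▸ hk)))
  linarith

lemma ps_mem_K {s : Finset ι} (hs : IsCl R.G s) : R.ps s ∈ R.K := fun i => by
  by_cases hi : i ∈ s
  · exact (R.B_ps_mem hs hi).le
  · exact (R.B_ps_notMem hi).le

lemma B_ps_ps {s : Finset ι} (hs : IsCl R.G s) : B (R.ps s) (R.ps s) < 0 := by
  rw [B_ps]
  have h0 : ∑ i ∈ s, B R.p (R.e i) * B (R.e i) (R.ps s) = 0 := by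
    refine sum_eq_zero fun i hi => ?_
    rw [B_comm (R.e i), R.B_ps_mem hs hi, mul_zero]
  rw [h0, B_comm, B_ps]
  have h1 : 0 ≤ ∑ i ∈ s, B R.p (R.e i) * B (R.e i) R.p := by
    refine sum_nonneg fun k _ => ?_
    rw [B_comm (R.e k)]
    exact mul_self_nonneg _
  have := R.ptime
  linarith

/-- the key property of faces: only the walls orthogonal to a face cut it -/
lemma mem_K_of_link (hn : 1 ≤ n) {s : Finset ι} (hs : IsCl R.G s) (hcard : s.card + 2 ≤ n)
    {x : M n} (hxs : ∀ i ∈ s, B x (R.e i) = 0)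
    (hx : ∀ j, j ∉ s → (∀ i ∈ s, R.G i j = 0) → B x (R.e j) ≤ 0) (hxp : ∀ c : ℝ, 0 < c →
      x ≠ -(c • R.ps s)) : x ∈ R.K := by
  classical
  by_contra hxK
  -- first crossing
  have hex : ∃ j, 0 < B x (R.e j) := by
    by_contra h
    push Not at h
    exact hxK h
  have hjs : ∀ j, 0 < B x (R.e j) → j ∉ s := fun j hj hjs => by
    rw [hxs j hjs] at hj; exact lt_irrefl _ hj
  -- crossing parameter : `(1 - t) B ps e + t B x e = 0`
  obtain ⟨j0, hj0⟩ := hex
  obtain ⟨j, hj, hmin⟩ := exists_min_image (univ.filter (fun j => 0 < B x (R.e j)))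
    (fun j => -(B (R.ps s) (R.e j)) / (B x (R.e j) - B (R.ps s) (R.e j)))
    ⟨j0, by simpa using hj0⟩
  simp only [mem_filter, mem_univ, true_and] at hj hmin
  have hj' := R.B_ps_notMem (hjs j hj)
  set t := -(B (R.ps s) (R.e j)) / (B x (R.e j) - B (R.ps s) (R.e j)) with ht
  have hden : 0 < B x (R.e j) - B (R.ps s) (R.e j) := by linarith
  have ht0 : 0 < t := div_pos (by linarith) hden
  have ht1 : t < 1 := by rw [ht, div_lt_one hden]; linarith
  set y := (1 - t) • R.ps s + t • x with hy
  have hBy : ∀ i, B y (R.e i) = (1 - t) * B (R.ps s) (R.e i) + t * B x (R.e i) := fun i => by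
    rw [hy, B_add_left, B_smul_left, B_smul_left]
  have hyj : B y (R.e j) = 0 := by
    rw [hBy, ht]; field_simp; ring
  have hyK : y ∈ R.K := by
    intro i
    rw [hBy]
    by_cases hi : 0 < B x (R.e i)
    · have h1 := hmin i hi
      have h2 := R.B_ps_notMem (hjs i hi)
      have hden' : 0 < B x (R.e i) - B (R.ps s) (R.e i) := by linarith
      rw [le_div_iff₀ hden'] at h1
      linarith
    · push Not at hi
      have h1 := R.ps_mem_K hs i
      have h2 : (1 - t) * B (R.ps s) (R.e i) ≤ 0 :=
        mul_nonpos_of_nonneg_of_nonpos (by linarith) h1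
      have h3 : t * B x (R.e i) ≤ 0 := mul_nonpos_of_nonneg_of_nonpos ht0.le hi
      linarith
  have hy0 : y ≠ 0 := by
    intro h0
    apply hxp ((1 - t) / t) (div_pos (by linarith) ht0)
    have h1 : t • x = -((1 - t) • R.ps s) := by
      rw [← sub_eq_zero, sub_neg_eq_add, add_comm]; exact h0
    have h2 : x = t⁻¹ • (t • x) := by rw [smul_smul, inv_mul_cancel₀ ht0.ne', one_smul]
    rw [h2, h1, smul_neg, smul_smul, div_eq_inv_mul]
  -- `j` is not in the link
  have hjl : ∃ i ∈ s, R.G i j ≠ 0 := by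
    by_contra h
    push Not at h
    exact absurd (hx j (hjs j hj) h) (not_le.2 hj)
  obtain ⟨i, his, hij⟩ := hjl
  have hys : ∀ i ∈ s, B y (R.e i) = 0 := fun i hi => by
    rw [hBy, R.B_ps_mem hs hi, hxs i hi]; ring
  have hine : i ≠ j := fun h => hjs j hj (h ▸ his)
  obtain ⟨hyy, -, -⟩ := R.eq_of_perp_two hn hyK hy0 hine hij (hys i his) hyj
  obtain ⟨E, E', a, ha, hE', hfE, hEE, hA⟩ := exists_frame R hn hy0 hyy hyK
  -- a pair disjoint from `s`
  have hpair : ∃ k, E k ∉ s ∧ E' k ∉ s := by
    by_contra h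
    push Not at h
    have h1 : ∀ k, ∃ i ∈ s, i = E k ∨ i = E' k := fun k => by
      by_cases hk : E k ∈ s
      · exact ⟨E k, hk, Or.inl rfl⟩
      · exact ⟨E' k, h k hk, Or.inr rfl⟩
    choose g hg hg' using h1
    have hinj : Function.Injective g := by
      intro k l hkl
      by_contra hne
      have hself : B (R.e (g k)) (R.e (g l)) = 1 := by rw [hkl, R.unit]
      have hperp : B (R.e (g k)) (R.e (g l)) = 0 := by
        rcases hg' k with h1 | h1 <;> rcases hg' l with h2 | h2 <;> rw [h1, h2]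
        · exact hEE k l hne
        · rw [hE', B_sub_right, B_smul_right, B_comm _ y, hfE, hEE k l hne]; ring
        · rw [hE', B_sub_left, B_smul_left, hfE, hEE k l hne]; ring
        · rw [hE', hE', B_sub_left, B_sub_right, B_sub_right, B_smul_left, B_smul_left,
            B_smul_right, B_smul_right, hfE, hyy, B_comm _ y, hfE, hEE k l hne]; ring
      rw [hself] at hperp; norm_num at hperp
    have h2 : Fintype.card (Fin (n - 1)) ≤ s.card := by
      rw [← Finset.card_univ]
      exact card_le_card_of_injOn g (fun k _ => hg k) hinj.injOn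
    rw [Fintype.card_fin] at h2
    omega
  obtain ⟨k, hk, hk'⟩ := hpair
  -- `E k` is in the link of `s`
  have hkl : ∀ i ∈ s, R.G i (E k) = 0 := by
    intro i hi
    obtain ⟨l, hl⟩ := (hA i).1 (hys i hi)
    have hlk : l ≠ k := by
      rintro rfl
      rcases hl with rfl | rfl
      · exact hk hi
      · exact hk' hi
    unfold RASys.G
    rcases hl with rfl | rfl
    · exact hEE l k hlk
    · rw [hE', B_sub_left, B_smul_left, hfE, hEE l k hlk]; ring
  have h1 := hBy (E k)
  rw [hfE] at h1
  have h2 := hx (E k) hk hkl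
  have h3 := R.B_ps_notMem hk
  have h4 : (1 - t) * B (R.ps s) (R.e (E k)) < 0 := mul_neg_of_pos_of_neg (by linarith) h3
  have h5 : t * B x (R.e (E k)) ≤ 0 := mul_nonpos_of_nonneg_of_nonpos ht0.le h2
  linarith

end RASys

/-- index set of the face system -/
abbrev Lk (R : RASys n ι) (s : Finset ι) : Type := {j : ι // j ∉ s ∧ ∀ i ∈ s, R.G i j = 0}

noncomputable instance (s : Finset ι) : Fintype (Lk R s) := by
  classical
  exact Subtype.fintype _

/-- The face system of a clique -/
structure Face (R : RASys n ι) (s : Finset ι) (m : ℕ) where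
  /-- embedding -/
  φ : M m →ₗ[ℝ] M n
  /-- face system -/
  R' : RASys m (Lk R s)
  iso : ∀ x y, B (φ x) (φ y) = B x y
  perp : ∀ x, ∀ i ∈ s, B (φ x) (R.e i) = 0
  surj : ∀ y, (∀ i ∈ s, B y (R.e i) = 0) → ∃ x, φ x = y
  he : ∀ j, φ (R'.e j) = R.e j.1
  hp : φ R'.p = R.ps s
  hK : ∀ x, x ∈ R'.K → φ x ∈ R.K

theorem exists_face {m : ℕ} (hm : 2 ≤ m) (s : Finset ι) (hs : IsCl R.G s)
    (hcard : m + s.card = n) : Nonempty (Face R s m) := by
  obtain ⟨φ, hφ, hφs, hφr⟩ := exists_emb s hcard R.e (fun i _ => R.unit i)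
    (fun i hi j hj hij => hs i hi j hj hij)
  have h1 : ∀ j : Lk R s, ∃ x, φ x = R.e j.1 := fun j =>
    hφr _ (fun i hi => by rw [B_comm]; exact j.2.2 i hi)
  choose e' he' using h1
  obtain ⟨p', hp'⟩ := hφr (R.ps s) (fun i hi => R.B_ps_mem hs hi)
  have hkey : ∀ x : M m, (∀ j, B x (e' j) ≤ 0) → φ x ∈ R.K ∨ ∃ c : ℝ, 0 < c ∧ x = -(c • p') := by
    intro x hx
    by_cases hc : ∃ c : ℝ, 0 < c ∧ x = -(c • p')
    · exact Or.inr hc
    · left
      refine R.mem_K_of_link (by omega) hs (by omega) (hφs · · x) ?_ ?_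
      · intro j hj hjl
        have := hx ⟨j, hj, hjl⟩
        rwa [← hφ, he'] at this
      · intro c hc0 hxc
        apply hc
        refine ⟨c, hc0, ?_⟩
        have h2 : φ (x + c • p') = 0 := by rw [map_add, map_smul, hp', hxc]; simp
        have h3 : ∀ z, B (x + c • p') z = 0 := fun z => by rw [← hφ, h2, B_zero_left]
        have h4 : x + c • p' = 0 := by
          have hpt : B p' p' < 0 := by rw [← hφ, hp']; exact R.B_ps_ps hs
          exact causal_perp_timelike hpt (h3 _) (h3 _).le
        exact eq_neg_of_add_eq_zero_left h4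
  let R' : RASys m (Lk R s) :=
    { e := e'
      unit := fun j => by rw [← hφ, he']; exact R.unit _
      gram := fun i j hij => by
        rw [← hφ, he', he']
        exact R.gram _ _ (fun h => hij (Subtype.ext h))
      p := p'
      ptime := by rw [← hφ, hp']; exact R.B_ps_ps hs
      pneg := fun j => by rw [← hφ, he', hp']; exact R.B_ps_notMem j.2.1
      cone := fun x hx => by
        rcases hkey x hx with h | ⟨c, hc, rfl⟩
        · rw [← hφ]; exact R.cone _ h
        · rw [B_neg_left, B_neg_right, B_smul_left, B_smul_right, ← hφ, hp']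
          have := R.B_ps_ps hs
          have h2 : c * B (R.ps s) (R.ps s) < 0 := mul_neg_of_pos_of_neg hc this
          have h3 : c * (c * B (R.ps s) (R.ps s)) < 0 := mul_neg_of_pos_of_neg hc h2
          linarith }
  refine ⟨⟨φ, R', hφ, fun x i hi => hφs i hi x, hφr, he', hp', fun x hx => ?_⟩⟩
  rcases hkey x hx with h | ⟨c, hc, rfl⟩
  · exact h
  · exfalso
    obtain ⟨j⟩ := R'.nonempty_index (by omega)
    have h1 := hx j
    have h2 : B p' (e' j) < 0 := R'.pneg j
    change B (-(c • p')) (e' j) ≤ 0 at h1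
    rw [B_neg_left, B_smul_left] at h1
    have h3 : c * B p' (e' j) < 0 := mul_neg_of_pos_of_neg hc h2
    linarith

namespace Face
variable {R} {s : Finset ι} {m : ℕ} (F : Face R s m)

lemma G' (i j : Lk R s) : F.R'.G i j = R.G i.1 j.1 := by
  unfold RASys.G
  rw [← F.he, ← F.he, F.iso]

lemma G'_eq : F.R'.G = fun i j : Lk R s => R.G i.1 j.1 := by
  funext i j; exact F.G' i j

lemma B' (x : M m) (j : Lk R s) : B x (F.R'.e j) = B (F.φ x) (R.e j.1) := by
  rw [← F.he, F.iso]

lemma mem_K' (x : M m) : x ∈ F.R'.K ↔ F.φ x ∈ R.K :=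
  ⟨F.hK x, fun h j => by rw [F.B']; exact h _⟩

lemma inj : Function.Injective F.φ := by
  intro x y hxy
  have h0 : F.φ (x - y) = 0 := by rw [map_sub, hxy, sub_self]
  have h3 : ∀ z, B (x - y) z = 0 := fun z => by rw [← F.iso, h0, B_zero_left]
  have h4 : x - y = 0 := causal_perp_timelike F.R'.ptime (h3 _) (h3 _).le
  exact sub_eq_zero.1 h4

end Face

section transfer
variable {α : Type*} [AddCommMonoid α]

/-- cliques containing `s` correspond to cliques of the link -/
lemma sum_cliques_link (s : Finset ι) (hs : IsCl R.G s)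
    (f : Finset ι → α) :
    ∑ t ∈ (cliques R.G).filter (s ⊆ ·), f t =
      ∑ t' ∈ cliques (fun i j : Lk R s => R.G i.1 j.1),
        f (s ∪ t'.map (Function.Embedding.subtype _)) := by
  classical
  refine Finset.sum_bij' (i := fun t _ => t.subtype (fun j => j ∉ s ∧ ∀ i ∈ s, R.G i j = 0))
    (j := fun t' _ => s ∪ t'.map (Function.Embedding.subtype _)) ?_ ?_ ?_ ?_ ?_
  · intro t ht
    simp only [mem_filter, cliques, mem_univ, true_and] at ht ⊢
    intro i hi j hj hij
    simp only [mem_subtype] at hi hj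
    exact ht.1 i hi j hj (fun h => hij (Subtype.ext h))
  · intro t' ht'
    simp only [mem_filter, cliques, mem_univ, true_and] at ht' ⊢
    refine ⟨?_, subset_union_left⟩
    intro i hi j hj hij
    simp only [mem_union, mem_map, Function.Embedding.coe_subtype] at hi hj
    rcases hi with hi | ⟨i', hi', rfl⟩ <;> rcases hj with hj | ⟨j', hj', rfl⟩
    · exact hs i hi j hj hij
    · exact j'.2.2 i hi
    · rw [R.G_comm]; exact i'.2.2 j hj
    · exact ht' i' hi' j' hj' (fun h => hij (congrArg _ h))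
  · intro t ht
    simp only [mem_filter, cliques, mem_univ, true_and] at ht
    ext j
    simp only [mem_union, mem_map, mem_subtype, Function.Embedding.coe_subtype, Subtype.exists,
      exists_and_left, exists_prop, exists_eq_right_right]
    constructor
    · rintro (h | ⟨h, -⟩)
      · exact ht.2 h
      · exact h
    · intro h
      by_cases hjs : j ∈ s
      · exact Or.inl hjs
      · right
        refine ⟨h, hjs, fun i hi => ht.1 i (ht.2 hi) j h ?_⟩
        rintro rfl; exact hjs hi
  · intro t' ht'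
    ext j
    simp only [mem_subtype, mem_union, mem_map, Function.Embedding.coe_subtype, Subtype.exists,
      exists_and_right, exists_eq_right]
    constructor
    · rintro (h | ⟨h, h'⟩)
      · exact absurd h j.2.1
      · exact h'
    · intro h
      exact Or.inr ⟨j.2, h⟩
  · intro t ht
    simp only [mem_filter, cliques, mem_univ, true_and] at ht
    congr 1
    ext j
    simp only [mem_union, mem_map, mem_subtype, Function.Embedding.coe_subtype, Subtype.exists,
      exists_and_left, exists_prop, exists_eq_right_right]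
    constructor
    · intro h
      by_cases hjs : j ∈ s
      · exact Or.inl hjs
      · right
        refine ⟨h, hjs, fun i hi => ht.1 i (ht.2 hi) j h ?_⟩
        rintro rfl; exact hjs hi
    · rintro (h | ⟨h, -⟩)
      · exact ht.2 h
      · exact h

end transfer

end Pool.Agent.RA
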