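import Pool.Agent.Lib_helper16.RA.Face

/-!
Ideal vertices of faces.
-/

open Finset

namespace Pool.Agent.RA
variable {n : ℕ} {ι : Type} [Fintype ι] [DecidableEq ι] {R : RASys n ι}

namespace RASys

lemma mem_pos {x : M n} {i : ι} : i ∈ R.pos x ↔ 0 < B x (R.e i) := by
  classical
  simp [pos]

lemma pos_eq_empty {x : M n} : R.pos x = ∅ ↔ x ∈ R.K := by
  rw [eq_empty_iff_forall_notMem]
  simp only [mem_pos, not_lt]
  rfl

end RASys

/-- two ideal vertices with orthogonal isotropic vectors coincide -/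
lemma iv_eq_of_B_zero (hn : 1 ≤ n) {f g : M n} (hf0 : f ≠ 0) (hfK : f ∈ R.K) (hg0 : g ≠ 0)
    (hgK : g ∈ R.K) (h : B f g = 0) :
    ∃ t : ℝ, 0 < t ∧ f = t • g :=
  (causal_zero R.ptime (R.cone f hfK) (R.cone g hgK) (R.K_time hn hfK hf0)
    (R.K_time hn hgK hg0) h).2.2

/-- a frame pair disjoint from a clique of small size -/
lemma exists_pair_notMem {f : M n} (hf : B f f = 0) {E E' : Fin (n - 1) → ι}
    {a : Fin (n - 1) → ℝ} (hE' : ∀ k, R.e (E' k) = a k • f - R.e (E k))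
    (hfE : ∀ k, B f (R.e (E k)) = 0) (hEE : ∀ k l, k ≠ l → B (R.e (E k)) (R.e (E l)) = 0)
    {s : Finset ι} (hcard : s.card + 2 ≤ n) : ∃ k, E k ∉ s ∧ E' k ∉ s := by
  by_contra h
  push Not at h
  have h1 : ∀ k, ∃ i ∈ s, i = E k ∨ i = E' k := fun k => by
    by_cases hk : E k ∈ s
    · exact ⟨E k, hk, Or.inl rfl⟩
    · exact ⟨E' k, h k hk, Or.inr rfl⟩
  choose g hg hg' using h1
  have hinj : Function.Injective g := by
    intro k l hkl
    by_contra hne
    have hself : B (R.e (g k)) (R.e (g l)) = 1 := by rw [hkl, R.unit]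
    have hperp : B (R.e (g k)) (R.e (g l)) = 0 := by
      rcases hg' k with h1 | h1 <;> rcases hg' l with h2 | h2 <;> rw [h1, h2]
      · exact hEE k l hne
      · rw [hE', B_sub_right, B_smul_right, B_comm _ f, hfE, hEE k l hne]; ring
      · rw [hE', B_sub_left, B_smul_left, hfE, hEE k l hne]; ring
      · rw [hE', hE', B_sub_left, B_sub_right, B_sub_right, B_smul_left, B_smul_left,
          B_smul_right, B_smul_right, hfE, hf, B_comm _ f, hfE, hEE k l hne]; ring
    rw [hself] at hperp; norm_num at hperp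
  have h2 : Fintype.card (Fin (n - 1)) ≤ s.card := by
    rw [← Finset.card_univ]
    exact card_le_card_of_injOn g (fun k _ => hg k) hinj.injOn
  rw [Fintype.card_fin] at h2
  omega

/-- orthogonality inside a frame -/
lemma frame_perp {f : M n} (hf : B f f = 0) {E E' : Fin (n - 1) → ι}
    {a : Fin (n - 1) → ℝ} (hE' : ∀ k, R.e (E' k) = a k • f - R.e (E k))
    (hfE : ∀ k, B f (R.e (E k)) = 0) (hEE : ∀ k l, k ≠ l → B (R.e (E k)) (R.e (E l)) = 0)
    {k l : Fin (n - 1)} (hkl : k ≠ l) {i j : ι} (hi : i = E k ∨ i = E' k)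
    (hj : j = E l ∨ j = E' l) : R.G i j = 0 := by
  unfold RASys.G
  rcases hi with h1 | h1 <;> rcases hj with h2 | h2 <;> rw [h1, h2]
  · exact hEE k l hkl
  · rw [hE', B_sub_right, B_smul_right, B_comm _ f, hfE, hEE k l hkl]; ring
  · rw [hE', B_sub_left, B_smul_left, hfE, hEE k l hkl]; ring
  · rw [hE', hE', B_sub_left, B_sub_right, B_sub_right, B_smul_left, B_smul_left,
      B_smul_right, B_smul_right, hfE, hf, B_comm _ f, hfE, hEE k l hkl]; ring

/-- `v` is the set of walls through the isotropic vector `f` -/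
structure IsIv (R : RASys n ι) (f : M n) (v : Finset ι) : Prop where
  ne : f ≠ 0
  iso : B f f = 0
  memK : f ∈ R.K
  mem : ∀ i, i ∈ v ↔ B f (R.e i) = 0

lemma mem_iv (hn : 2 ≤ n) {v : Finset ι} : v ∈ iv R.G ↔ ∃ f, IsIv R f v := by
  rw [mem_iv_iff R hn]
  constructor
  · rintro ⟨f, h1, h2, h3, h4⟩; exact ⟨f, h1, h2, h3, h4⟩
  · rintro ⟨f, h1, h2, h3, h4⟩; exact ⟨f, h1, h2, h3, h4⟩

variable {s : Finset ι} {m : ℕ} (F : Face R s m)

namespace Face

lemma isIv_iff {f : M m} {v : Finset ι} (h : IsIv R (F.φ f) v) :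
    IsIv F.R' f (v.subtype (fun j => j ∉ s ∧ ∀ i ∈ s, R.G i j = 0)) where
  ne := fun h0 => h.ne (by rw [h0, map_zero])
  iso := by rw [← F.iso]; exact h.iso
  memK := (F.mem_K' f).2 h.memK
  mem := fun i => by rw [mem_subtype, h.mem, F.B']

lemma exists_pre {f : M n} {v : Finset ι} (h : IsIv R f v) (hsv : s ⊆ v) :
    ∃ f', F.φ f' = f := F.surj f (fun i hi => (h.mem i).1 (hsv hi))

open Classical in
lemma iv_bij (hm : 2 ≤ m) (_hcard : m + s.card = n) (P : Finset ι → Prop)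
    (P' : Finset (Lk R s) → Prop)
    (hPP : ∀ f v, IsIv R (F.φ f) v → s ⊆ v →
      (P v ↔ P' (v.subtype (fun j => j ∉ s ∧ ∀ i ∈ s, R.G i j = 0)))) :
    ((iv R.G).filter (fun v => s ⊆ v ∧ P v)).card =
      ((iv (fun i j : Lk R s => R.G i.1 j.1)).filter P').card := by
  have hn : 2 ≤ n := by omega
  rw [← F.G'_eq]
  refine card_bij (fun v _ => v.subtype (fun j => j ∉ s ∧ ∀ i ∈ s, R.G i j = 0)) ?_ ?_ ?_
  · intro v hv
    simp only [mem_filter] at hv ⊢
    obtain ⟨hv, hsv, hP⟩ := hv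
    obtain ⟨f, hf⟩ := (mem_iv hn).1 hv
    obtain ⟨f', rfl⟩ := F.exists_pre hf hsv
    exact ⟨(mem_iv hm).2 ⟨f', F.isIv_iff hf⟩, (hPP f' v hf hsv).1 hP⟩
  · intro v1 hv1 v2 hv2 h12
    simp only [mem_filter] at hv1 hv2
    obtain ⟨f1, hf1⟩ := (mem_iv hn).1 hv1.1
    obtain ⟨f2, hf2⟩ := (mem_iv hn).1 hv2.1
    obtain ⟨f1', rfl⟩ := F.exists_pre hf1 hv1.2.1
    obtain ⟨f2', rfl⟩ := F.exists_pre hf2 hv2.2.1
    have g1 := F.isIv_iff hf1
    have g2 := F.isIv_iff hf2
    obtain ⟨E, E', a, ha, hE', hfE, hEE, hA⟩ :=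
      exists_frame F.R' (by omega : 1 ≤ m) g1.ne g1.iso g1.memK
    have hpos : 0 < m - 1 := by omega
    let k0 : Fin (m - 1) := ⟨0, hpos⟩
    have hm1 : E k0 ∈ v2.subtype (fun j => j ∉ s ∧ ∀ i ∈ s, R.G i j = 0) := by
      rw [← h12]; exact (g1.mem _).2 (hfE k0)
    have hm2 : E' k0 ∈ v2.subtype (fun j => j ∉ s ∧ ∀ i ∈ s, R.G i j = 0) := by
      rw [← h12]; exact (g1.mem _).2 ((hA _).2 ⟨k0, Or.inr rfl⟩)
    have hB1 := (g2.mem _).1 hm1
    have hB2 := (g2.mem _).1 hm2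
    rw [hE', B_sub_right, B_smul_right, hB1, sub_zero] at hB2
    have hB3 : B f2' f1' = 0 := by
      rcases mul_eq_zero.1 hB2 with h | h
      · exact absurd h (ha k0).ne'
      · exact h
    obtain ⟨t, ht, hft⟩ := iv_eq_of_B_zero (R := F.R') (by omega) g2.ne g2.memK g1.ne g1.memK hB3
    ext i
    rw [hf1.mem, hf2.mem, hft, map_smul, B_smul_left]
    simp [ht.ne']
  · intro v' hv'
    simp only [mem_filter] at hv'
    obtain ⟨f', hf'⟩ := (mem_iv hm).1 hv'.1
    have hv : IsIv R (F.φ f') (univ.filter (fun i => B (F.φ f') (R.e i) = 0)) :=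
      { ne := fun h0 => hf'.ne (F.inj (by rw [h0, map_zero]))
        iso := by rw [F.iso]; exact hf'.iso
        memK := F.hK _ hf'.memK
        mem := fun i => by simp }
    have hs : s ⊆ univ.filter (fun i => B (F.φ f') (R.e i) = 0) := fun i hi => by
      simpa using F.perp f' i hi
    have heq : (univ.filter (fun i => B (F.φ f') (R.e i) = 0)).subtype
        (fun j => j ∉ s ∧ ∀ i ∈ s, R.G i j = 0) = v' := by
      ext j
      rw [mem_subtype, hf'.mem, F.B', hv.mem]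
    refine ⟨_, ?_, heq⟩
    rw [mem_filter]
    refine ⟨(mem_iv hn).2 ⟨_, hv⟩, hs, ?_⟩
    rw [hPP f' _ hv hs, heq]
    exact hv'.2

/-- disjointness from the positive set of a point of the face -/
lemma disjoint_iff (hm : 2 ≤ m) (hcard : m + s.card = n)
    {f y : M m} {v : Finset ι} (h : IsIv R (F.φ f) v) (hsv : s ⊆ v) :
    Disjoint v (R.pos (F.φ y)) ↔
      Disjoint (v.subtype (fun j => j ∉ s ∧ ∀ i ∈ s, R.G i j = 0)) (F.R'.pos y) := by
  have hn : 2 ≤ n := by omega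
  simp only [disjoint_left, RASys.mem_pos, not_lt, mem_subtype]
  constructor
  · intro h1 j hj
    rw [F.B']; exact h1 hj
  · intro h1 i hi
    obtain ⟨E, E', a, ha, hE', hfE, hEE, hA⟩ :=
      exists_frame R (by omega : 1 ≤ n) h.ne h.iso h.memK
    obtain ⟨k, hk, hk'⟩ := exists_pair_notMem (s := s) h.iso hE' hfE hEE (by omega)
    have hperp : ∀ j, (j = E k ∨ j = E' k) → ∀ i ∈ s, R.G i j = 0 := by
      intro j hj i hi
      obtain ⟨l, hl⟩ := (hA i).1 ((h.mem i).1 (hsv hi))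
      have hlk : l ≠ k := by
        rintro rfl
        rcases hl with rfl | rfl
        · exact hk hi
        · exact hk' hi
      exact frame_perp h.iso hE' hfE hEE hlk hl hj
    have e1 := h1 (a := ⟨E k, hk, hperp _ (Or.inl rfl)⟩)
      ((h.mem _).2 (hfE k))
    have e2 := h1 (a := ⟨E' k, hk', hperp _ (Or.inr rfl)⟩)
      ((h.mem _).2 ((hA _).2 ⟨k, Or.inr rfl⟩))
    rw [F.B'] at e1 e2
    simp only at e1 e2
    have hyf : B (F.φ y) (F.φ f) ≤ 0 := by
      rw [hE', B_sub_right, B_smul_right] at e2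
      by_contra hc
      push Not at hc
      have := mul_pos (ha k) hc
      linarith
    -- general `i`
    by_cases his : i ∈ s
    · exact (F.perp y i his).le
    by_cases hil : ∀ i' ∈ s, R.G i' i = 0
    · have := h1 (a := ⟨i, his, hil⟩) hi
      rwa [F.B'] at this
    · push Not at hil
      obtain ⟨i', hi', hne⟩ := hil
      obtain ⟨-, c, hc, hcc⟩ := R.ideal_pair (by omega) h.ne h.memK ((h.mem _).1 (hsv hi'))
        ((h.mem _).1 hi) (fun h => his (h ▸ hi')) hne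
      have h2 : R.e i = c • F.φ f - R.e i' := by rw [← hcc]; abel
      rw [h2, B_sub_right, B_smul_right, F.perp y i' hi', sub_zero]
      exact mul_nonpos_of_nonneg_of_nonpos hc.le hyf

end Face
end Pool.Agent.RA
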