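import Pool.Agent.Lib_helper16.RA.Lorentz

/-!
Right-angled systems: the cone `K`, ideal vertices and their frames.
-/

open Finset

namespace Pool.Agent.RA
namespace RASys
variable {n : ℕ} {ι : Type} [Fintype ι] [DecidableEq ι] (R : RASys n ι)

lemma G_self (i : ι) : R.G i i = 1 := R.unit i

lemma G_ne_one {i j : ι} (h : i ≠ j) : R.G i j ≠ 1 := by
  rcases R.gram i j h with h | h
  · unfold G; rw [h]; norm_num
  · unfold G; linarith

lemma G_nonpos {i j : ι} (h : i ≠ j) : R.G i j ≤ 0 := by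
  rcases R.gram i j h with h | h
  · exact h.le
  · unfold G; linarith

lemma G_cases (i j : ι) : i = j ∨ R.G i j = 0 ∨ R.G i j ≤ -1 := by
  by_cases h : i = j
  · exact Or.inl h
  · exact Or.inr (R.gram i j h)

lemma K_add {x y : M n} (hx : x ∈ R.K) (hy : y ∈ R.K) : x + y ∈ R.K := fun i => by
  rw [B_add_left]; exact add_nonpos (hx i) (hy i)

lemma K_smul {x : M n} (hx : x ∈ R.K) {t : ℝ} (ht : 0 ≤ t) : t • x ∈ R.K := fun i => by
  rw [B_smul_left]; exact mul_nonpos_of_nonneg_of_nonpos ht (hx i)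

lemma p_mem : R.p ∈ R.K := fun i => (R.pneg i).le

/-- a spacelike vector, `n ≥ 1` -/
lemma exists_spacelike (hn : 1 ≤ n) : ∃ x : M n, 0 < B x x := by
  obtain ⟨m, rfl⟩ : ∃ m, n = m + 1 := ⟨n - 1, by omega⟩
  exact ⟨b0, by rw [B_b0_b0]; norm_num⟩

include R in
lemma nonempty_index (hn : 1 ≤ n) : Nonempty ι := by
  by_contra h
  rw [not_nonempty_iff] at h
  obtain ⟨x, hx⟩ := exists_spacelike hn
  exact absurd (R.cone x (fun i => h.elim i)) (not_le.2 hx)

/-- nonzero elements of `K` are in the nappe of `p` -/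
lemma K_time (hn : 1 ≤ n) {x : M n} (hx : x ∈ R.K) (hx0 : x ≠ 0) : B x R.p < 0 := by
  by_contra h
  push Not at h
  obtain ⟨i⟩ := R.nonempty_index hn
  set t := -(B x R.p) / B R.p R.p with ht
  have htn : 0 ≤ t := div_nonneg_of_nonpos (by linarith) R.ptime.le
  have h1 : x + t • R.p ∈ R.K := R.K_add hx (R.K_smul R.p_mem htn)
  have h2 : B (x + t • R.p) R.p = 0 := by
    rw [B_add_left, B_smul_left, ht, div_mul_cancel₀ _ R.ptime.ne]; ring
  have h3 : x + t • R.p = 0 := causal_perp_timelike R.ptime h2 (R.cone _ h1)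
  rcases htn.eq_or_lt with h0 | hpos
  · rw [← h0] at h3; simp at h3; exact hx0 h3
  · have h4 : B (x + t • R.p) (R.e i) = 0 := by rw [h3]; simp
    rw [B_add_left, B_smul_left] at h4
    have h5 := hx i
    have h6 : t * B R.p (R.e i) < 0 := mul_neg_of_pos_of_neg hpos (R.pneg i)
    linarith

/-- a point of `K` orthogonal to two non-orthogonal walls is isotropic -/
lemma eq_of_perp_two (hn : 1 ≤ n) {x : M n} (hx : x ∈ R.K) (hx0 : x ≠ 0) {i j : ι} (hij : i ≠ j)
    (hG : R.G i j ≠ 0) (hi : B x (R.e i) = 0) (hj : B x (R.e j) = 0) :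
    B x x = 0 ∧ R.G i j = -1 ∧ ∃ t : ℝ, 0 < t ∧ x = t • (R.e i + R.e j) := by
  have hG1 : R.G i j ≤ -1 := (R.gram i j hij).resolve_left hG
  have hc : B (R.e i + R.e j) (R.e i + R.e j) = 2 + 2 * R.G i j := by
    rw [B_add_left, B_add_right, B_add_right, R.unit, R.unit, B_comm (R.e j) (R.e i)]
    unfold G; ring
  have hp : B (R.e i + R.e j) R.p < 0 := by
    rw [B_add_left, B_comm _ R.p, B_comm _ R.p]
    have := R.pneg i; have := R.pneg j; linarith
  obtain ⟨h1, h2, t, ht, hxt⟩ := causal_zero R.ptime (R.cone x hx)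
    (by rw [hc]; linarith : B (R.e i + R.e j) (R.e i + R.e j) ≤ 0) (R.K_time hn hx hx0) hp
    (by rw [B_add_right, hi, hj, add_zero])
  exact ⟨h1, by rw [hc] at h2; linarith, t, ht, hxt⟩

section ideal
variable {f : M n}

/-- (★) -/
lemma eq_smul_of_le (hn : 1 ≤ n) (hf0 : f ≠ 0) (hf : B f f = 0) (hfK : f ∈ R.K) {y : M n}
    (hy : B y f = 0) (hle : ∀ i, B f (R.e i) = 0 → B y (R.e i) ≤ 0) : ∃ c : ℝ, y = c • f := by
  have hfp := R.K_time hn hfK hf0
  -- choose `t` large
  obtain ⟨t, ht⟩ : ∃ t : ℝ, ∀ i, B (y + t • f) (R.e i) ≤ 0 := by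
    have h1 : ∀ i, ∃ T : ℝ, ∀ t, T ≤ t → B (y + t • f) (R.e i) ≤ 0 := by
      intro i
      by_cases h : B f (R.e i) = 0
      · exact ⟨0, fun t _ => by rw [B_add_left, B_smul_left, h, mul_zero, add_zero]; exact hle i h⟩
      · have h2 : B f (R.e i) < 0 := lt_of_le_of_ne (hfK i) h
        refine ⟨B y (R.e i) / -(B f (R.e i)), fun t ht => ?_⟩
        rw [div_le_iff₀ (by linarith)] at ht
        rw [B_add_left, B_smul_left]
        linarith
    choose T hT using h1
    refine ⟨∑ i, |T i|, fun i => hT i _ ?_⟩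
    exact (le_abs_self _).trans (single_le_sum (f := fun i => |T i|) (fun j _ => abs_nonneg _)
      (mem_univ i))
  have h2 : B (y + t • f) (y + t • f) ≤ 0 := R.cone _ ht
  have h3 : B (y + t • f) (y + t • f) = B y y := by
    rw [B_add_left, B_add_right, B_add_right, B_smul_left, B_smul_left, B_smul_right,
      B_smul_right, B_comm f y, hy, hf]; ring
  exact perp_isotropic_eq R.ptime hf hfp.ne hy (by rw [← h3]; exact h2)

/-- walls through an ideal vertex are orthogonal or parallel -/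
lemma ideal_pair (hn : 1 ≤ n) (hf0 : f ≠ 0) (hfK : f ∈ R.K) {i j : ι}
    (hi : B f (R.e i) = 0) (hj : B f (R.e j) = 0) (hij : i ≠ j) (h : R.G i j ≠ 0) :
    R.G i j = -1 ∧ ∃ c : ℝ, 0 < c ∧ R.e i + R.e j = c • f := by
  obtain ⟨-, h2, t, ht, hxt⟩ := R.eq_of_perp_two hn hfK hf0 hij h hi hj
  exact ⟨h2, t⁻¹, inv_pos.2 ht, by rw [hxt, smul_smul, inv_mul_cancel₀ ht.ne', one_smul]⟩

/-- every wall through an ideal vertex has a partner -/
lemma exists_partner (hn : 1 ≤ n) (hf0 : f ≠ 0) (hf : B f f = 0) (hfK : f ∈ R.K) {i : ι}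
    (hi : B f (R.e i) = 0) : ∃ j, j ≠ i ∧ B f (R.e j) = 0 ∧ R.G i j = -1 ∧
      ∃ c : ℝ, 0 < c ∧ R.e j = c • f - R.e i := by
  by_contra hcon
  have h1 : ∃ c : ℝ, -R.e i = c • f := by
    apply R.eq_smul_of_le hn hf0 hf hfK
    · rw [B_neg_left, B_comm, hi, neg_zero]
    · intro k hk
      rw [B_neg_left]
      by_contra hlt
      push Not at hlt
      have h2 : B (R.e i) (R.e k) < 0 := by linarith
      have hik : i ≠ k := by
        rintro rfl; rw [R.unit] at h2; linarith
      obtain ⟨h3, c, hc, h4⟩ := R.ideal_pair hn hf0 hfK hi hk hik (by unfold G; exact h2.ne)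
      exact hcon ⟨k, hik.symm, hk, h3, c, hc, by rw [← h4]; abel⟩
  obtain ⟨c, hc⟩ := h1
  have h5 : B (-R.e i) (-R.e i) = 1 := by rw [B_neg_left, B_neg_right, R.unit]; ring
  rw [hc, B_smul_left, B_smul_right, hf] at h5
  norm_num at h5

lemma partner_unique (hf : B f f = 0) {i j k : ι} {c c' : ℝ} (hj : R.e j = c • f - R.e i)
    (hk : R.e k = c' • f - R.e i) (hi : B f (R.e i) = 0) : j = k := by
  by_contra h
  apply R.G_ne_one h
  unfold G
  rw [hj, hk, B_sub_left, B_sub_right, B_sub_right, B_smul_left, B_smul_left, B_smul_right,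
    B_smul_right, B_comm (R.e i) f, hi, hf, R.unit]
  ring

end ideal

end RASys

lemma exists_perp_spacelike {m : ℕ} (hm : 2 ≤ m) (f : M m) : ∃ v : M m, B v f = 0 ∧ 0 < B v v := by
  obtain ⟨k, rfl⟩ : ∃ k, m = k + 2 := ⟨m - 2, by omega⟩
  by_cases h : f.1 0 = 0
  · refine ⟨(Pi.single 0 1, 0), ?_, ?_⟩
    · simp [B, Pi.single_apply, h]
    · simp [B, Pi.single_apply]
  · refine ⟨(Pi.single 0 (f.1 1) - Pi.single 1 (f.1 0), 0), ?_, ?_⟩
    · simp only [B, Pi.sub_apply, Pi.single_apply]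
      rw [Fin.sum_univ_succ, Fin.sum_univ_succ]
      simp [Fin.ext_iff]
      ring
    · have h1 : B ((Pi.single 0 (f.1 1) - Pi.single 1 (f.1 0), 0) : M (k + 2))
          (Pi.single 0 (f.1 1) - Pi.single 1 (f.1 0), 0) = f.1 1 ^ 2 + f.1 0 ^ 2 := by
        simp only [B, Pi.sub_apply, Pi.single_apply]
        rw [Fin.sum_univ_succ, Fin.sum_univ_succ]
        simp [Fin.ext_iff]
        ring
      rw [h1]
      positivity

section A
variable {n : ℕ} {ι : Type} [Fintype ι] [DecidableEq ι] (R : RASys n ι)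

theorem exists_frame (hn : 1 ≤ n) {f : M n} (hf0 : f ≠ 0) (hf : B f f = 0) (hfK : f ∈ R.K) :
    ∃ (E E' : Fin (n - 1) → ι) (a : Fin (n - 1) → ℝ),
      (∀ k, 0 < a k) ∧ (∀ k, R.e (E' k) = a k • f - R.e (E k)) ∧
      (∀ k, B f (R.e (E k)) = 0) ∧ (∀ k l, k ≠ l → B (R.e (E k)) (R.e (E l)) = 0) ∧
      (∀ i, B f (R.e i) = 0 ↔ ∃ k, i = E k ∨ i = E' k) := by
  classical
  have hpart := fun i (hi : B f (R.e i) = 0) => R.exists_partner hn hf0 hf hfK hi
  choose! σ hσ using hpart
  have hσ4 := fun i hi => (hσ i hi).2.2.2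
  choose! a ha using hσ4
  obtain ⟨O, hO, hmax⟩ := exists_max_image
    ((cliques R.G).filter (· ⊆ univ.filter (fun i => B f (R.e i) = 0))) card
    ⟨∅, by simp [cliques, IsCl]⟩
  simp only [mem_filter, cliques, mem_univ, true_and] at hO hmax
  obtain ⟨hOc, hOA⟩ := hO
  have hOf : ∀ i ∈ O, B f (R.e i) = 0 := fun i hi => by
    have := hOA hi; simpa using this
  have hAO : ∀ i, B f (R.e i) = 0 → i ∈ O ∨ ∃ j ∈ O, i = σ j := by
    intro i hi
    by_contra hcon
    push Not at hcon
    obtain ⟨hiO, hiσ⟩ := hcon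
    have hperp : ∀ j ∈ O, R.G i j = 0 := by
      intro j hj
      by_contra hG
      have hij : i ≠ j := fun h => hiO (h ▸ hj)
      obtain ⟨-, c, hc, hcc⟩ := R.ideal_pair hn hf0 hfK hi (hOf j hj) hij hG
      apply hiσ j hj
      exact R.partner_unique (f := f) (i := j) (c := c) (c' := a j) hf (by rw [← hcc]; abel)
        (ha j (hOf j hj)).2 (hOf j hj)
    have h1 := hmax (insert i O) ⟨?_, ?_⟩
    · rw [card_insert_of_notMem hiO] at h1; omega
    · intro j hj k hk hjk
      rcases mem_insert.1 hj with rfl | hj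
      · rcases mem_insert.1 hk with rfl | hk
        · exact absurd rfl hjk
        · exact hperp k hk
      · rcases mem_insert.1 hk with hk | hk
        · rw [R.G_comm, hk]; exact hperp j hj
        · exact hOc j hj k hk hjk
    · intro j hj
      rcases mem_insert.1 hj with rfl | hj
      · simpa using hi
      · exact hOA hj
  -- cardinality
  have hcard1 : O.card < n := by
    by_contra hge
    push Not at hge
    obtain ⟨T, hTO, hTc⟩ := exists_subset_card_eq hge
    obtain ⟨φ, hφ, -, hφr⟩ := exists_emb (m := 0) T (by omega) R.e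
      (fun i _ => R.unit i) (fun i hi j hj hij => hOc i (hTO hi) j (hTO hj) hij)
    obtain ⟨x, hx⟩ := hφr f (fun i hi => hOf i (hTO hi))
    have h1 : B x x = 0 := by rw [← hφ, hx, hf]
    have h2 : x.2 = 0 := by
      rw [B_self] at h1; simpa using h1
    apply hf0
    rw [← hx]
    have h3 : x = 0 := by
      ext i
      · exact i.elim0
      · simpa using h2
    rw [h3, map_zero]
  have hcard2 : n ≤ O.card + 1 := by
    by_contra hlt
    push Not at hlt
    obtain ⟨φ, hφ, hφs, hφr⟩ := exists_emb (m := n - O.card) O (by omega) R.e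
      (fun i _ => R.unit i) (fun i hi j hj hij => hOc i hi j hj hij)
    obtain ⟨f', hf'⟩ := hφr f hOf
    obtain ⟨v, hv1, hv2⟩ := exists_perp_spacelike (by omega : 2 ≤ n - O.card) f'
    have hvf : B (φ v) f = 0 := by rw [← hf', hφ]; exact hv1
    obtain ⟨c, hc⟩ := R.eq_smul_of_le hn hf0 hf hfK hvf (fun i hi => by
      rcases hAO i hi with hiO | ⟨j, hj, rfl⟩
      · exact (hφs i hiO v).le
      · rw [(ha j (hOf j hj)).2, B_sub_right, B_smul_right, hvf, hφs j hj]; simp)
    have h1 : B (φ v) (φ v) = 0 := by rw [hc, B_smul_left, B_smul_right, hf]; simp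
    rw [hφ] at h1
    linarith
  have hcard : Fintype.card O = n - 1 := by rw [Fintype.card_coe]; omega
  let g : Fin (n - 1) ≃ O := (Fintype.equivFinOfCardEq hcard).symm
  refine ⟨fun k => (g k : ι), fun k => σ (g k), fun k => a (g k), ?_, ?_, ?_, ?_, ?_⟩
  · intro k; exact (ha _ (hOf _ (g k).2)).1
  · intro k; exact (ha _ (hOf _ (g k).2)).2
  · intro k; exact hOf _ (g k).2
  · intro k l hkl
    refine hOc _ (g k).2 _ (g l).2 (fun h => hkl (g.injective (Subtype.ext h)))
  · intro i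
    constructor
    · intro hi
      rcases hAO i hi with hiO | ⟨j, hj, rfl⟩
      · exact ⟨g.symm ⟨i, hiO⟩, Or.inl (by simp)⟩
      · exact ⟨g.symm ⟨j, hj⟩, Or.inr (by simp)⟩
    · rintro ⟨k, rfl | rfl⟩
      · exact hOf _ (g k).2
      · exact (hσ _ (hOf _ (g k).2)).2.1

theorem mem_iv_iff (hn : 2 ≤ n) (v : Finset ι) :
    v ∈ iv R.G ↔ ∃ f : M n, f ≠ 0 ∧ B f f = 0 ∧ f ∈ R.K ∧ ∀ i, i ∈ v ↔ B f (R.e i) = 0 := by
  classical
  simp only [iv, mem_image, mem_filter, mem_univ, true_and, star]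
  constructor
  · rintro ⟨⟨i, j⟩, hij, rfl⟩
    have hne : i ≠ j := by
      rintro rfl; rw [R.G_self] at hij; norm_num at hij
    refine ⟨R.e i + R.e j, ?_, ?_, ?_, ?_⟩
    · intro h0
      have h1 : B (R.e i + R.e j) R.p < 0 := by
        rw [B_add_left, B_comm _ R.p, B_comm _ R.p]
        have := R.pneg i; have := R.pneg j; linarith
      rw [h0] at h1; simp at h1
    · have h1 : R.G i j = -1 := hij
      unfold RASys.G at h1
      rw [B_add_left, B_add_right, B_add_right, R.unit, R.unit, B_comm (R.e j) (R.e i), h1]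
      norm_num
    · intro k
      rw [B_add_left]
      rcases eq_or_ne i k with rfl | hik
      · rw [R.unit]
        have h1 : R.G i j = -1 := hij
        rw [R.G_comm] at h1
        unfold RASys.G at h1
        rw [h1]; norm_num
      · rcases eq_or_ne j k with rfl | hjk
        · rw [R.unit]
          have h1 : R.G i j = -1 := hij
          unfold RASys.G at h1
          rw [h1]; norm_num
        · exact add_nonpos (R.G_nonpos hik) (R.G_nonpos hjk)
    · intro k
      simp only [mem_filter, mem_univ, true_and]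
      rw [B_add_left, R.G_comm k i, R.G_comm k j]
      rfl
  · rintro ⟨f, hf0, hf, hfK, hv⟩
    obtain ⟨E, E', a, ha, hE', hfE, hEE, hA⟩ := exists_frame R (by omega : 1 ≤ n) hf0 hf hfK
    have hpos : 0 < n - 1 := by omega
    let k0 : Fin (n - 1) := ⟨0, hpos⟩
    have hsum : R.e (E k0) + R.e (E' k0) = a k0 • f := by rw [hE']; abel
    refine ⟨(E k0, E' k0), ?_, ?_⟩
    · show R.G (E k0) (E' k0) = -1
      unfold RASys.G
      rw [hE', B_sub_right, B_smul_right, B_comm _ f, hfE, R.unit]; norm_num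
    · ext k
      simp only [mem_filter, mem_univ, true_and]
      rw [hv, R.G_comm k, R.G_comm k]
      unfold RASys.G
      rw [← B_add_left, hsum, B_smul_left]
      have := (ha k0).ne'
      simp [this]

end A

end Pool.Agent.RA
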