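import Pool.Agent.Lib_helper16.RA.Basics

/-!
Elementary Lorentzian linear algebra.
-/

open Finset

namespace Pool.Agent.RA
variable {n : ℕ}

/-- the orthogonal complement of a timelike vector is positive definite -/
lemma timelike_perp_pos {p x : M n} (hp : B p p < 0) (hx : B x p = 0) (hx0 : x ≠ 0) :
    0 < B x x := by
  have hcs : (∑ i, x.1 i * p.1 i) ^ 2 ≤ (∑ i, x.1 i ^ 2) * ∑ i, p.1 i ^ 2 :=
    sum_mul_sq_le_sq_mul_sq _ _ _
  have hx1 : ∑ i, x.1 i * p.1 i = x.2 * p.2 := by unfold B at hx; linarith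
  rw [B_self] at hp ⊢
  rw [hx1] at hcs
  have hp0 : 0 ≤ ∑ i, p.1 i ^ 2 := by positivity
  have hpt : 0 < p.2 ^ 2 := by linarith
  have hX : 0 ≤ ∑ i, x.1 i ^ 2 := by positivity
  rcases hX.eq_or_lt with h0 | hpos
  · exfalso
    rw [← h0] at hcs
    have h1 : (x.2 * p.2) ^ 2 = 0 := le_antisymm (by linarith) (sq_nonneg _)
    have h2 : x.2 = 0 := by
      have : x.2 * p.2 = 0 := by simpa using h1
      rcases mul_eq_zero.1 this with h | h
      · exact h
      · rw [h] at hpt; simp at hpt
    apply hx0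
    apply E2_eq_zero
    unfold E2
    rw [← h0, h2]; ring
  · have h3 : x.2 ^ 2 * p.2 ^ 2 ≤ (∑ i, x.1 i ^ 2) * ∑ i, p.1 i ^ 2 := by
      calc x.2 ^ 2 * p.2 ^ 2 = (x.2 * p.2) ^ 2 := by ring
        _ ≤ _ := hcs
    have h4 : (∑ i, x.1 i ^ 2) * ∑ i, p.1 i ^ 2 < (∑ i, x.1 i ^ 2) * p.2 ^ 2 :=
      mul_lt_mul_of_pos_left (by linarith) hpos
    have h5 : x.2 ^ 2 * p.2 ^ 2 < (∑ i, x.1 i ^ 2) * p.2 ^ 2 := lt_of_le_of_lt h3 h4
    have := lt_of_mul_lt_mul_right h5 hpt.le
    linarith

/-- a causal vector orthogonal to a timelike vector is zero -/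
lemma causal_perp_timelike {p x : M n} (hp : B p p < 0) (hx : B x p = 0) (hc : B x x ≤ 0) :
    x = 0 := by
  by_contra h
  exact absurd (timelike_perp_pos hp hx h) (not_lt.2 hc)

/-- two causal vectors in the same nappe have nonpositive product -/
lemma causal_nonpos {p x y : M n} (hp : B p p < 0) (hx : B x x ≤ 0) (hy : B y y ≤ 0)
    (hxp : B x p < 0) (hyp : B y p < 0) : B x y ≤ 0 := by
  set t := B x p / B y p with ht
  have htpos : 0 < t := div_pos_of_neg_of_neg hxp hyp
  have hz : B (x - t • y) p = 0 := by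
    rw [B_sub_left, B_smul_left, ht, div_mul_cancel₀ _ hyp.ne, sub_self]
  have h0 : 0 ≤ B (x - t • y) (x - t • y) := by
    by_cases h : x - t • y = 0
    · rw [h]; simp
    · exact (timelike_perp_pos hp hz h).le
  rw [B_sub_left, B_sub_right, B_sub_right, B_smul_left, B_smul_left, B_smul_right,
    B_smul_right, B_comm y x] at h0
  have : t * B y y * t ≤ 0 := by
    have : t * B y y ≤ 0 := mul_nonpos_of_nonneg_of_nonpos htpos.le hy
    exact mul_nonpos_of_nonpos_of_nonneg this htpos.le
  nlinarith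

/-- ... and if the product is zero then they are parallel (and isotropic) -/
lemma causal_zero {p x y : M n} (hp : B p p < 0) (hx : B x x ≤ 0) (hy : B y y ≤ 0)
    (hxp : B x p < 0) (hyp : B y p < 0) (h : B x y = 0) :
    B x x = 0 ∧ B y y = 0 ∧ ∃ t : ℝ, 0 < t ∧ x = t • y := by
  set t := B x p / B y p with ht
  have htpos : 0 < t := div_pos_of_neg_of_neg hxp hyp
  have hz : B (x - t • y) p = 0 := by
    rw [B_sub_left, B_smul_left, ht, div_mul_cancel₀ _ hyp.ne, sub_self]
  have hexp : B (x - t • y) (x - t • y) = B x x + t ^ 2 * B y y := by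
    rw [B_sub_left, B_sub_right, B_sub_right, B_smul_left, B_smul_left, B_smul_right,
      B_smul_right, B_comm y x, h]; ring
  have hzle : B (x - t • y) (x - t • y) ≤ 0 := by
    rw [hexp]
    have : t ^ 2 * B y y ≤ 0 := mul_nonpos_of_nonneg_of_nonpos (by positivity) hy
    linarith
  have hz0 := causal_perp_timelike hp hz hzle
  rw [hz0] at hexp
  simp only [B_zero_left] at hexp
  have h1 : t ^ 2 * B y y ≤ 0 := mul_nonpos_of_nonneg_of_nonpos (by positivity) hy
  have h2 : B x x = 0 := by linarith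
  have h3 : t ^ 2 * B y y = 0 := by linarith
  have h4 : B y y = 0 := by
    rcases mul_eq_zero.1 h3 with h | h
    · exact absurd h (by positivity)
    · exact h
  exact ⟨h2, h4, t, htpos, sub_eq_zero.1 hz0⟩

/-- a vector orthogonal to a nonzero isotropic vector is spacelike or zero -/
lemma perp_isotropic_nonneg {p f y : M n} (hp : B p p < 0) (hf : B f f = 0) (hfp : B f p ≠ 0)
    (hy : B y f = 0) : 0 ≤ B y y := by
  set c := B y p / B f p with hc
  have hz : B (y - c • f) p = 0 := by
    rw [B_sub_left, B_smul_left, hc, div_mul_cancel₀ _ hfp, sub_self]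
  have hexp : B (y - c • f) (y - c • f) = B y y := by
    rw [B_sub_left, B_sub_right, B_sub_right, B_smul_left, B_smul_left, B_smul_right,
      B_smul_right, B_comm f y, hy, hf]; ring
  by_cases h : y - c • f = 0
  · rw [← hexp, h]; simp
  · rw [← hexp]; exact (timelike_perp_pos hp hz h).le

lemma perp_isotropic_eq {p f y : M n} (hp : B p p < 0) (hf : B f f = 0) (hfp : B f p ≠ 0)
    (hy : B y f = 0) (hyy : B y y ≤ 0) : ∃ c : ℝ, y = c • f := by
  set c := B y p / B f p with hc
  have hz : B (y - c • f) p = 0 := by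
    rw [B_sub_left, B_smul_left, hc, div_mul_cancel₀ _ hfp, sub_self]
  have hexp : B (y - c • f) (y - c • f) = B y y := by
    rw [B_sub_left, B_sub_right, B_sub_right, B_smul_left, B_smul_left, B_smul_right,
      B_smul_right, B_comm f y, hy, hf]; ring
  exact ⟨c, sub_eq_zero.1 (causal_perp_timelike hp hz (by rw [hexp]; exact hyy))⟩

/-! ### Reflections and embeddings -/

/-- reflection in the hyperplane orthogonal to `z` -/
noncomputable def refl (z : M n) : M n →ₗ[ℝ] M n :=
  LinearMap.id - (2 / B z z) • (LinearMap.smulRight (Bl.flip z) z)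

lemma refl_apply (z x : M n) : refl z x = x - (2 * B x z / B z z) • z := by
  simp only [refl, LinearMap.sub_apply, LinearMap.id_apply, LinearMap.smul_apply,
    LinearMap.smulRight_apply, LinearMap.flip_apply, Bl_apply, smul_smul]
  congr 2
  ring

lemma B_refl {z : M n} (hz : B z z ≠ 0) (x y : M n) : B (refl z x) (refl z y) = B x y := by
  rw [refl_apply, refl_apply, B_sub_left, B_sub_right, B_sub_right, B_smul_left, B_smul_left,
    B_smul_right, B_smul_right, B_comm z y]
  field_simp
  ring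

lemma refl_refl {z : M n} (hz : B z z ≠ 0) (x : M n) : refl z (refl z x) = x := by
  rw [refl_apply z (refl z x), refl_apply z x, B_sub_left, B_smul_left]
  have : 2 * (B x z - 2 * B x z / B z z * B z z) / B z z = - (2 * B x z / B z z) := by
    field_simp; ring
  rw [this]
  simp

/-- standard isometric embedding `ℝ^{n,1} → ℝ^{n+1,1}` -/
def stdEmb : M n →ₗ[ℝ] M (n + 1) where
  toFun x := (Fin.cons 0 x.1, x.2)
  map_add' x y := by
    ext i
    · refine Fin.cases ?_ (fun j => ?_) i <;> simp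
    · simp
  map_smul' c x := by
    ext i
    · refine Fin.cases ?_ (fun j => ?_) i <;> simp
    · simp

/-- the first standard basis vector -/
def b0 : M (n + 1) := (Fin.cons 1 0, 0)

lemma B_stdEmb (x y : M n) : B (stdEmb x) (stdEmb y) = B x y := by
  simp [B, stdEmb, Fin.sum_univ_succ]

lemma B_b0 (x : M (n + 1)) : B x b0 = x.1 0 := by
  simp [B, b0, Fin.sum_univ_succ]

lemma B_b0_b0 : B (b0 : M (n + 1)) b0 = 1 := by
  rw [B_b0]; simp [b0]

lemma exists_stdEmb {x : M (n + 1)} (h : B x b0 = 0) : ∃ y : M n, stdEmb y = x := by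
  rw [B_b0] at h
  refine ⟨(fun i => x.1 i.succ, x.2), ?_⟩
  ext i
  · refine Fin.cases ?_ (fun j => ?_) i
    · simp [stdEmb, h]
    · simp [stdEmb]
  · simp [stdEmb]

/-- isometric embedding with range the orthogonal complement of a unit spacelike vector -/
lemma exists_emb_one (w : M (n + 1)) (hw : B w w = 1) :
    ∃ ψ : M n →ₗ[ℝ] M (n + 1), (∀ x y, B (ψ x) (ψ y) = B x y) ∧ (∀ x, B (ψ x) w = 0) ∧
      ∀ y, B y w = 0 → ∃ x, ψ x = y := by
  obtain ⟨ε, hε, hpos⟩ : ∃ ε : ℝ, ε * ε = 1 ∧ ε * B w b0 ≤ 0 := by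
    by_cases h : B w b0 ≤ 0
    · exact ⟨1, by norm_num, by linarith⟩
    · exact ⟨-1, by norm_num, by linarith⟩
  set z := w - ε • b0 with hz
  have hBwz : B w z = 1 - ε * B w b0 := by rw [hz, B_sub_right, B_smul_right, hw]
  have hBbz : B b0 z = B w b0 - ε := by
    rw [hz, B_sub_right, B_smul_right, B_b0_b0, B_comm]; ring
  have hzz : B z z = 2 - 2 * (ε * B w b0) := by
    have : B z z = B w z - ε * B b0 z := by
      conv_lhs => rw [hz]
      rw [B_sub_left, B_smul_left]
    rw [this, hBwz, hBbz]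
    linear_combination hε
  have hzz0 : B z z ≠ 0 := by rw [hzz]; linarith
  have hLb : refl z b0 = ε • w := by
    rw [refl_apply, hBbz, hzz]
    have h1 : 2 * (B w b0 - ε) / (2 - 2 * (ε * B w b0)) = -ε := by
      rw [div_eq_iff (by linarith)]
      linear_combination -(2 * B w b0) * hε
    rw [h1, hz, smul_sub, smul_smul]
    have h2 : (-ε) * ε = -1 := by linarith
    rw [h2]
    simp
  refine ⟨(refl z).comp stdEmb, fun x y => ?_, fun x => ?_, fun y hy => ?_⟩
  · simp only [LinearMap.comp_apply, B_refl hzz0, B_stdEmb]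
  · have h1 : B (refl z (stdEmb x)) (refl z b0) = 0 := by
      rw [B_refl hzz0, B_b0]; simp [stdEmb]
    rw [hLb, B_smul_right] at h1
    have hε0 : ε ≠ 0 := by
      rintro rfl; norm_num at hε
    simpa [hε0] using h1
  · have h1 : B (refl z y) b0 = 0 := by
      have : B (refl z y) (refl z (refl z b0)) = 0 := by
        rw [B_refl hzz0, hLb, B_smul_right, hy, mul_zero]
      rwa [refl_refl hzz0] at this
    obtain ⟨x, hx⟩ := exists_stdEmb h1
    exact ⟨x, by simp only [LinearMap.comp_apply, hx, refl_refl hzz0]⟩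

/-- isometric embedding with range the orthogonal complement of an orthonormal family -/
lemma exists_emb {ι : Type} (s : Finset ι) : ∀ {m n : ℕ}, m + s.card = n →
    ∀ e : ι → M n, (∀ i ∈ s, B (e i) (e i) = 1) →
    (∀ i ∈ s, ∀ j ∈ s, i ≠ j → B (e i) (e j) = 0) →
    ∃ φ : M m →ₗ[ℝ] M n, (∀ x y, B (φ x) (φ y) = B x y) ∧ (∀ i ∈ s, ∀ x, B (φ x) (e i) = 0) ∧
      ∀ y, (∀ i ∈ s, B y (e i) = 0) → ∃ x, φ x = y := by
  classical
  induction s using Finset.induction_on with
  | empty =>
    intro m n hmn e _ _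
    simp only [card_empty, add_zero] at hmn
    subst hmn
    exact ⟨LinearMap.id, by simp, by simp, fun y _ => ⟨y, rfl⟩⟩
  | insert i s hi ih =>
    intro m n hmn e hunit horth
    rw [card_insert_of_notMem hi, ← add_assoc] at hmn
    subst hmn
    obtain ⟨ψ, hψ, hψi, hψr⟩ := exists_emb_one (e i) (hunit i (mem_insert_self i s))
    have hex : ∀ j ∈ s, ∃ x, ψ x = e j := fun j hj => by
      apply hψr
      exact horth j (mem_insert_of_mem hj) i (mem_insert_self i s) (fun h => hi (h ▸ hj))
    choose! e' he' using hex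
    obtain ⟨φ, hφ, hφs, hφr⟩ := ih (m := m) rfl e'
      (fun j hj => by rw [← hψ, he' j hj]; exact hunit j (mem_insert_of_mem hj))
      (fun j hj k hk hjk => by
        rw [← hψ, he' j hj, he' k hk]
        exact horth j (mem_insert_of_mem hj) k (mem_insert_of_mem hk) hjk)
    refine ⟨ψ.comp φ, fun x y => by simp [hψ, hφ], ?_, ?_⟩
    · intro j hj x
      rcases mem_insert.1 hj with rfl | hj
      · exact hψi _
      · rw [LinearMap.comp_apply, ← he' j hj, hψ]; exact hφs j hj x
    · intro y hy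
      obtain ⟨x1, hx1⟩ := hψr y (hy i (mem_insert_self i s))
      obtain ⟨x, hx⟩ := hφr x1 (fun j hj => by
        rw [← hψ, hx1, he' j hj]; exact hy j (mem_insert_of_mem hj))
      exact ⟨x, by rw [LinearMap.comp_apply, hx, hx1]⟩

/-- an orthonormal spacelike family has at most `n` elements -/
lemma card_orthonormal_le {ι : Type} (s : Finset ι) (e : ι → M n)
    (hunit : ∀ i ∈ s, B (e i) (e i) = 1)
    (horth : ∀ i ∈ s, ∀ j ∈ s, i ≠ j → B (e i) (e j) = 0) : s.card ≤ n := by
  by_contra h
  push Not at h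
  obtain ⟨t, hts, htc⟩ := exists_subset_card_eq h.le
  obtain ⟨i, hi, hit⟩ : ∃ i ∈ s, i ∉ t := by
    by_contra hc
    push Not at hc
    have := card_le_card (show s ⊆ t from hc)
    omega
  obtain ⟨φ, hφ, -, hφr⟩ := exists_emb (m := 0) t (by omega) e
    (fun j hj => hunit j (hts hj)) (fun j hj k hk => horth j (hts hj) k (hts hk))
  obtain ⟨x, hx⟩ := hφr (e i) (fun j hj => horth i hi j (hts hj) (fun h => hit (h ▸ hj)))
  have h1 := hunit i hi
  rw [← hx, hφ, B_self] at h1
  simp at h1
  nlinarith [sq_nonneg x.2]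

end Pool.Agent.RA
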