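import Pool.Agent.Lib_helper16.RA.FaceIv

/-!
Local structure at ideal vertices.
-/

open Finset

namespace Pool.Agent.RA

theorem two_le_all (m : ℕ) (κ : Type) [Fintype κ] [DecidableEq κ] (R : RASys m κ) (hm : 2 ≤ m) :
    2 ≤ Fintype.card κ := by
  by_contra h
  obtain ⟨i⟩ := R.nonempty_index (by omega)
  have h1 : Fintype.card κ ≤ 1 := by omega
  have hsub := Fintype.card_le_one_iff_subsingleton.1 h1
  obtain ⟨v, hv, hvv⟩ := exists_perp_spacelike hm (R.e i)
  have h2 := R.cone v (fun j => by rw [Subsingleton.elim j i]; exact hv.le)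
  linarith

variable {n : ℕ} {ι : Type} [Fintype ι] [DecidableEq ι]

theorem star_one_all (hn : 2 ≤ n) (R : RASys n ι) (v : Finset ι) (hv : v ∈ iv R.G)
    (s : Finset ι) (hs : s ∈ cliques R.G) (hsv : s ⊆ v) :
    (v.filter (fun j => j ∉ s ∧ ∀ i ∈ s, R.G i j = 0)).card = 2 * (n - 1 - s.card) := by
  classical
  obtain ⟨f, hf⟩ := (mem_iv hn).1 hv
  obtain ⟨E, E', a, ha, hE', hfE, hEE, hA⟩ :=
    exists_frame R (by omega : 1 ≤ n) hf.ne hf.iso hf.memK
  have hsc : IsCl R.G s := by simpa [cliques] using hs
  have hfE' : ∀ k, B f (R.e (E' k)) = 0 := fun k => (hA _).2 ⟨k, Or.inr rfl⟩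
  have huniq : ∀ i k l, (i = E k ∨ i = E' k) → (i = E l ∨ i = E' l) → k = l := by
    intro i k l hk hl
    by_contra hkl
    have h1 := frame_perp (R := R) hf.iso hE' hfE hEE hkl hk hl
    rw [R.G_self] at h1
    norm_num at h1
  have hpair : ∀ k, R.G (E k) (E' k) = -1 := by
    intro k
    unfold RASys.G
    rw [hE', B_sub_right, B_smul_right, B_comm _ f, hfE, R.unit]; norm_num
  have hne : ∀ k, E k ≠ E' k := by
    intro k h
    have := hpair k
    rw [← h, R.G_self] at this
    norm_num at this
  -- the index of a wall through the vertex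
  have hidx : ∀ i, i ∈ v → ∃ k, i = E k ∨ i = E' k := fun i hi => (hA i).1 ((hf.mem i).1 hi)
  let T : Finset (Fin (n - 1)) := univ.filter (fun k => E k ∉ s ∧ E' k ∉ s)
  have hEinj : Function.Injective E := fun k l h => huniq (E k) k l (Or.inl rfl) (Or.inl h)
  have hE'inj : Function.Injective E' := fun k l h => huniq (E' k) k l (Or.inr rfl) (Or.inr h)
  have hT : T.card + s.card = n - 1 := by
    have h1 : s.card = (univ.filter (fun k => ¬ (E k ∉ s ∧ E' k ∉ s))).card := by
      have : Nonempty (Fin (n - 1)) := ⟨⟨0, by omega⟩⟩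
      choose! κ hκ using hidx
      refine card_bij (fun i _ => κ i) ?_ ?_ ?_
      · intro i hi
        simp only [mem_filter, mem_univ, true_and, not_and, not_not]
        intro h
        rcases hκ i (hsv hi) with h1 | h1
        · rw [← h1] at h; exact absurd hi h
        · rw [← h1]; exact hi
      · intro i hi j hj hij
        by_contra hne'
        have h0 := hsc i hi j hj hne'
        have e1 := hκ i (hsv hi)
        have e2 := hκ j (hsv hj)
        rw [hij] at e1
        have e0 := hpair (κ j)
        generalize κ j = k at e0 e1 e2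
        rcases e1 with e1 | e1 <;> rcases e2 with e2 | e2
        · exact hne' (e1.trans e2.symm)
        · rw [← e1, ← e2, h0] at e0; norm_num at e0
        · rw [← e1, ← e2, R.G_comm, h0] at e0; norm_num at e0
        · exact hne' (e1.trans e2.symm)
      · intro k hk
        simp only [mem_filter, mem_univ, true_and, not_and_or, not_not] at hk
        rcases hk with hk | hk
        · exact ⟨E k, hk, huniq (E k) _ _ (hκ _ (hsv hk)) (Or.inl rfl)⟩
        · exact ⟨E' k, hk, huniq (E' k) _ _ (hκ _ (hsv hk)) (Or.inr rfl)⟩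
    rw [h1, card_filter_add_card_filter_not, card_univ, Fintype.card_fin]
  have hset : v.filter (fun j => j ∉ s ∧ ∀ i ∈ s, R.G i j = 0) = T.image E ∪ T.image E' := by
    ext j
    simp only [mem_filter, mem_union, mem_image, T, mem_univ, true_and]
    constructor
    · rintro ⟨hjv, hjs, hj⟩
      obtain ⟨k, hk⟩ := hidx j hjv
      rcases hk with rfl | rfl
      · left
        refine ⟨k, ⟨hjs, fun h => ?_⟩, rfl⟩
        have := hj _ h
        rw [R.G_comm, hpair] at this; norm_num at this
      · right
        refine ⟨k, ⟨fun h => ?_, hjs⟩, rfl⟩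
        have := hj _ h
        rw [hpair] at this; norm_num at this
    · have key : ∀ k, (E k ∉ s ∧ E' k ∉ s) → ∀ j, (j = E k ∨ j = E' k) →
          ∀ i ∈ s, R.G i j = 0 := by
        intro k hk j hj i hi
        obtain ⟨l, hl⟩ := hidx i (hsv hi)
        have hlk : l ≠ k := by
          rintro rfl
          rcases hl with h | h
          · exact hk.1 (h ▸ hi)
          · exact hk.2 (h ▸ hi)
        exact frame_perp hf.iso hE' hfE hEE hlk hl hj
      rintro (⟨k, hk, rfl⟩ | ⟨k, hk, rfl⟩)
      · exact ⟨(hf.mem _).2 (hfE k), hk.1, key k hk _ (Or.inl rfl)⟩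
      · exact ⟨(hf.mem _).2 (hfE' k), hk.2, key k hk _ (Or.inr rfl)⟩
  rw [hset, card_union_of_disjoint, card_image_of_injective _ hEinj,
    card_image_of_injective _ hE'inj]
  · omega
  · rw [disjoint_left]
    intro j hj hj'
    rw [mem_image] at hj hj'
    obtain ⟨k, -, hk⟩ := hj
    obtain ⟨l, -, hl⟩ := hj'
    have := huniq j k l (Or.inl hk.symm) (Or.inr hl.symm)
    subst this
    exact hne k (hk.trans hl.symm)

end Pool.Agent.RA
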