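import Pool.Agent.Lib_helper16.RA.Lorentz
import Pool.Agent.Lib_helper6.RAHyp

/-!
MP_20f8ce_gt : definitions used in the final statement.
-/

open MeasureTheory Finset

namespace Pool.Agent.RA

/-- `P` is a right-angled polytope in hyperbolic 6-space: it is the intersection of finitely many
half-spaces `B x (e i) ≤ 0` with unit normals `e i`, it has interior points, no half-space is
redundant (so that the hyperplanes are those of the sides), two of the hyperplanes which meet in
`H^6` are orthogonal, and the volume is finite. -/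
def IsRAP (P : Set (M 6)) : Prop :=
  ∃ (k : ℕ) (e : Fin k → M 6),
    (∀ i, B (e i) (e i) = 1) ∧
    P = {x | x ∈ Hyp ∧ ∀ i, B x (e i) ≤ 0} ∧
    (∃ x ∈ Hyp, ∀ i, B x (e i) < 0) ∧
    (∀ i, ∃ x ∈ Hyp, 0 < B x (e i) ∧ ∀ j, j ≠ i → B x (e j) ≤ 0) ∧
    (∀ i j, i ≠ j → (∃ x ∈ Hyp, B x (e i) = 0 ∧ B x (e j) = 0) → B (e i) (e j) = 0) ∧
    hvol P < ⊤

/-- vectors with integer coordinates -/
def IsInt (x : M 6) : Prop := (∀ i, ∃ k : ℤ, x.1 i = k) ∧ ∃ k : ℤ, x.2 = k

/-- elements of the group `Γ^6_2`: linear maps which preserve the Lorentzian form and the upper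
sheet of the hyperboloid, and which have an integer matrix congruent to the identity mod 2. -/
def IsGamma62 (g : M 6 →ₗ[ℝ] M 6) : Prop :=
  (∀ x y, B (g x) (g y) = B x y) ∧ (∀ x ∈ Hyp, g x ∈ Hyp) ∧
    ∀ x, IsInt x → ∃ z, IsInt z ∧ g x = x + (2 : ℝ) • z

/-- normal vectors of the mirrors of the reflections in `Γ^6_2`; the reflection is
`refl v x = x - (2 * B x v / B v v) • v` -/
def IsRoot (v : M 6) : Prop := 0 < B v v ∧ IsGamma62 (refl v)

/-- `C` is a Coxeter polytope of the reflection group `Γ^6_2`: the set of all points of `H^6` which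
are not separated by a mirror from a given point `y` on no mirror. -/
def IsChamber (C : Set (M 6)) : Prop :=
  ∃ y ∈ Hyp, (∀ v, IsRoot v → B y v ≠ 0) ∧
    C = {x | x ∈ Hyp ∧ ∀ v, IsRoot v → 0 ≤ B x v * B y v}

end Pool.Agent.RA
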