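import Pool.Agent.Lib_helper16.RA.CombFinal
import Pool.Agent.Lib_helper16.RA.Star
import Pool.Agent.Lib_helper16.RA.Statement
import Pool.Agent.Lib_helper54.RAFinal

/-!
The main theorem: every right-angled polytope in hyperbolic 6-space has volume `≥ π³/15`.
-/

open MeasureTheory Finset

namespace Pool.Agent.RA

theorem comb_all {n : ℕ} (hn : 2 ≤ n) {ι : Type} [Fintype ι] [DecidableEq ι] (R : RASys n ι) :
    Comb n R.G :=
  comb_of hn R (star_one_all hn R) (fun m κ _ _ R' hm => two_le_all m κ R' hm)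

theorem hvol_ge {P : Set (M 6)} (hP : IsRAP P) : ENNReal.ofReal (Real.pi ^ 3 / 15) ≤ hvol P := by
  obtain ⟨k, e, hunit, rfl, hint, hirr, hra, hfin⟩ := hP
  have h0 : ({x | x ∈ Hyp ∧ ∀ i, B x (e i) ≤ 0} : Set (M 6)) ∩ Hyp =
      {x | ∀ i, B x (e i) ≤ 0} ∩ Hyp := by
    ext x; simp only [Set.mem_inter_iff, Set.mem_ofPred_eq]; tauto
  have h1 : hvol {x | x ∈ Hyp ∧ ∀ i, B x (e i) ≤ 0} = hvol {x | ∀ i, B x (e i) ≤ 0} := by
    unfold hvol; rw [h0]
  rw [h1] at hfin ⊢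
  exact hvol_ge_of_comb e hunit hint hirr hra hfin (fun R => comb_all (by norm_num) R)

end Pool.Agent.RA
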