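import Pool.Agent.Lib_helper16.RA.Statement

/-!
MP_20f8ce_gt : the 27-sided polytope.
-/

open MeasureTheory Finset

namespace Pool.Agent.RA

/-- integer coordinates of the outward normals of the 27 sides:
`x_i ≥ 0`, `x_i + x_j ≤ x_7`, `∑_{k ≠ i} x_k ≤ 2 x_7` -/
def v27 : Fin 27 → Fin 7 → ℤ :=
  ![![-1, 0, 0, 0, 0, 0, 0],
    ![0, -1, 0, 0, 0, 0, 0],
    ![0, 0, -1, 0, 0, 0, 0],
    ![0, 0, 0, -1, 0, 0, 0],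
    ![0, 0, 0, 0, -1, 0, 0],
    ![0, 0, 0, 0, 0, -1, 0],
    ![1, 1, 0, 0, 0, 0, 1],
    ![1, 0, 1, 0, 0, 0, 1],
    ![1, 0, 0, 1, 0, 0, 1],
    ![1, 0, 0, 0, 1, 0, 1],
    ![1, 0, 0, 0, 0, 1, 1],
    ![0, 1, 1, 0, 0, 0, 1],
    ![0, 1, 0, 1, 0, 0, 1],
    ![0, 1, 0, 0, 1, 0, 1],
    ![0, 1, 0, 0, 0, 1, 1],
    ![0, 0, 1, 1, 0, 0, 1],
    ![0, 0, 1, 0, 1, 0, 1],
    ![0, 0, 1, 0, 0, 1, 1],
    ![0, 0, 0, 1, 1, 0, 1],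
    ![0, 0, 0, 1, 0, 1, 1],
    ![0, 0, 0, 0, 1, 1, 1],
    ![0, 1, 1, 1, 1, 1, 2],
    ![1, 0, 1, 1, 1, 1, 2],
    ![1, 1, 0, 1, 1, 1, 2],
    ![1, 1, 1, 0, 1, 1, 2],
    ![1, 1, 1, 1, 0, 1, 2],
    ![1, 1, 1, 1, 1, 0, 2]]

/-- outward normals of the 27 sides -/
def e27 (i : Fin 27) : M 6 := (fun j => (v27 i j.castSucc : ℝ), (v27 i 6 : ℝ))

/-- integer Gram matrix -/
def g27 (i j : Fin 27) : ℤ := (∑ k : Fin 6, v27 i k.castSucc * v27 j k.castSucc) - v27 i 6 * v27 j 6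

lemma B_e27 (i j : Fin 27) : B (e27 i) (e27 j) = (g27 i j : ℝ) := by
  simp [B, e27, g27]

lemma g27_diag : ∀ i, g27 i i = 1 := by decide

lemma g27_off : ∀ i j, i ≠ j → g27 i j = 0 ∨ g27 i j = -1 := by decide

end Pool.Agent.RA
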